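import Pool.Agent.Q295.Thr.Step

/-! The first scale: a spread out set of generators. -/

set_option autoImplicit false

namespace Q295.Thr

open MeasureTheory ProbabilityTheory Function Finset Classical

variable {Γ : Type*} [Group Γ]

/-- the balls -/
noncomputable def bl (v : Γ) (S : Finset Γ) : ℕ → Finset Γ
  | 0 => {v}
  | j + 1 => bl v S j ∪ Finset.image₂ (fun x y => x * y) (bl v S j) S

theorem bl_succ (v : Γ) (S : Finset Γ) (j : ℕ) :
    bl v S (j + 1) = bl v S j ∪ Finset.image₂ (fun x y => x * y) (bl v S j) S := rfl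

theorem tr_bl (v : Γ) (S : Finset Γ) : ∀ j, tr v (bl 1 S j) = bl v S j := by
  intro j
  induction j with
  | zero => unfold tr bl; simp
  | succ j ih =>
    rw [bl_succ, bl_succ, ← ih]
    ext y
    rw [mem_tr, mem_union, mem_union, mem_tr, mem_image₂, mem_image₂]
    constructor
    · rintro (h | ⟨a, ha, b, hb, h⟩)
      · exact Or.inl h
      · right
        exact ⟨v * a, by rw [mem_tr]; simpa using ha, b, hb, by rw [mul_assoc, h]; group⟩
    · rintro (h | ⟨a, ha, b, hb, h⟩)
      · exact Or.inl h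
      · right
        rw [mem_tr] at ha
        exact ⟨v⁻¹ * a, ha, b, hb, by rw [← h]; group⟩

theorem one_sub_exp {x t : ℝ} (h0 : 0 ≤ x) (h1 : x ≤ t) : x * (1 - t / 2) ≤ 1 - Real.exp (-x) := by
  have h2 := Real.quadratic_le_exp_of_nonneg h0
  have h3 : Real.exp (-x) ≤ 1 - x + x ^ 2 / 2 := by
    rw [Real.exp_neg, inv_le_iff_one_le_mul₀ (Real.exp_pos x)]
    have h4 : 0 ≤ 1 - x + x ^ 2 / 2 := by nlinarith [sq_nonneg (x - 1)]
    calc (1 : ℝ) ≤ (1 - x + x ^ 2 / 2) * (1 + x + x ^ 2 / 2) := by nlinarith [sq_nonneg (x ^ 2)]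
      _ ≤ (1 - x + x ^ 2 / 2) * Real.exp x := mul_le_mul_of_nonneg_left h2 h4
  nlinarith

theorem exists_s {c : ℝ} (hc : 1 < c) : ∃ s : ℝ, 0 < s ∧ s < 1 ∧ Real.exp (-((1 - s) * c)) ≤ s := by
  set t : ℝ := 2 * (c - 1) / c ^ 2 with ht
  have hc0 : 0 < c := by linarith
  have ht0 : 0 < t := by rw [ht]; apply div_pos <;> nlinarith
  have ht1 : t < 1 := by
    rw [ht, div_lt_one (by positivity)]
    nlinarith [sq_nonneg (c - 1)]
  refine ⟨1 - t, by linarith, by linarith, ?_⟩
  rw [sub_sub_cancel]
  have h1 : 0 ≤ t * c := by positivity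
  have h2 := one_sub_exp h1 (le_refl (t * c))
  have h3 : t * c ^ 2 = 2 * (c - 1) := by rw [ht]; field_simp
  have h4 : t * c * (1 - t * c / 2) = t := by
    calc t * c * (1 - t * c / 2) = t * c - t * (t * c ^ 2) / 2 := by ring
      _ = t := by rw [h3]; ring
  linarith

theorem first [Infinite Γ] {lam m : ℝ} (hlam : 0 < lam) (hm : 0 < m) (h : 1 < lam * m) :
    ∃ q : ℝ, 0 < q ∧ q ≤ 1 ∧ ∀ M : ℕ, ∃ A : Finset Γ, A.Nonempty ∧ 1 ∉ A ∧ Hp lam (unif A m) M q := by
  set c : ℝ := (1 + lam * m) / 2 with hc
  have hc1 : 1 < c := by rw [hc]; linarith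
  obtain ⟨s, hs0, hs1, hs⟩ := exists_s hc1
  refine ⟨1 - s, by linarith, by linarith, ?_⟩
  intro M
  obtain ⟨N, hN⟩ := exists_nat_ge (max 1 (2 * (lam * m) * (lam * m / 2 + M) / (lam * m - 1)))
  have hN1 : (1 : ℝ) ≤ N := (le_max_left _ _).trans hN
  have hN2 : 2 * (lam * m) * (lam * m / 2 + M) / (lam * m - 1) ≤ N := (le_max_right _ _).trans hN
  have hNpos : 0 < N := by
    have : (0 : ℝ) < N := by linarith
    exact_mod_cast this
  obtain ⟨A, hA, hAK, -⟩ := exists_generic ({1} : Finset Γ) N
  have hAne : A.Nonempty := card_pos.1 (by omega)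
  refine ⟨A, hAne, ?_, ?_⟩
  · intro h1
    exact disjoint_left.1 (hAK 1 h1) (mem_dbl.2 ⟨1, by simp, 1, by simp, by simp⟩)
      (mem_singleton_self (1 : Γ))
  set S : Finset Γ := A ∪ A.image (·⁻¹) with hS
  refine ⟨bl 1 S M, ?_, ?_⟩
  · have : ∀ j, (1 : Γ) ∈ bl 1 S j := by
      intro j
      induction j with
      | zero => exact mem_singleton_self _
      | succ j ih => rw [bl_succ]; exact mem_union_left _ ih
    exact this M
  intro P hP hL v
  have hprob := hP.prob
  rw [tr_bl]
  have hB : ∀ j, bl v S j ⊆ bl v S (j + 1) := fun j => subset_union_left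
  have hex := explore hP hs0.le (M := M) (bl v S) hB ?_ M {v} ∅ (by simp) (by simp [bl]) (by simp)
  · rw [sdiff_empty, card_singleton, pow_one, card_empty] at hex
    have h1 : {ω : Conf Γ | M ≤ (cl ω (bl v S M) {v}).card} =
        {ω : Conf Γ | (cl ω (bl v S M) {v}).card + 0 < M}ᶜ := by
      ext ω
      show M ≤ _ ↔ ¬ (_ + 0 < M)
      omega
    rw [h1, probReal_compl_eq_one_sub]
    · linarith
    · exact (cl_dep (bl v S M) {v} (fun C => C.card + 0 < M)).meas
  · intro j hj u hu F hF huF
    -- the sum of the probabilities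
    have hterm : ∀ y ∈ bl v S (j + 1) \ F, 1 - P.real {ω | ω s(u, y) = true} * (1 - s) ≤
        Real.exp (-((1 - s) * P.real {ω | ω s(u, y) = true})) := by
      intro y _
      have := Real.add_one_le_exp (-((1 - s) * P.real {ω : Conf Γ | ω s(u, y) = true}))
      linarith
    have hnn : ∀ y ∈ bl v S (j + 1) \ F, 0 ≤ 1 - P.real {ω | ω s(u, y) = true} * (1 - s) := by
      intro y _
      have h1 : P.real {ω : Conf Γ | ω s(u, y) = true} ≤ 1 := measureReal_le_one
      have h2 : 0 ≤ P.real {ω : Conf Γ | ω s(u, y) = true} := measureReal_nonneg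
      nlinarith
    refine (prod_le_prod hnn hterm).trans ?_
    rw [← Real.exp_sum, sum_neg_distrib, ← mul_sum]
    refine le_trans ?_ hs
    apply Real.exp_le_exp.2
    apply neg_le_neg
    apply mul_le_mul_of_nonneg_left _ (by linarith)
    have hsub : tr u S \ F ⊆ bl v S (j + 1) \ F := by
      intro y hy
      rw [Finset.mem_sdiff] at hy ⊢
      refine ⟨?_, hy.2⟩
      rw [bl_succ, mem_union]
      right
      rw [mem_image₂]
      exact ⟨u, hu, u⁻¹ * y, mem_tr.1 hy.1, by group⟩
    refine le_trans ?_ (sum_le_sum_of_subset_of_nonneg hsub (fun y _ _ => measureReal_nonneg))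
    set S' : Finset Γ := S \ F.image (fun y => u⁻¹ * y) with hS'
    have himg : tr u S \ F = S'.image (fun a => u * a) := by
      ext y
      rw [Finset.mem_sdiff, mem_tr, mem_image]
      constructor
      · rintro ⟨h1, h2⟩
        refine ⟨u⁻¹ * y, ?_, by group⟩
        rw [hS', Finset.mem_sdiff, mem_image]
        refine ⟨h1, ?_⟩
        rintro ⟨z, hz, hz'⟩
        exact h2 (by rwa [← mul_left_cancel hz'])
      · rintro ⟨a, ha, rfl⟩
        rw [hS', Finset.mem_sdiff, mem_image] at ha
        refine ⟨by simpa using ha.1, fun hc => ha.2 ⟨u * a, hc, by group⟩⟩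
    rw [himg, sum_image (fun a _ b _ hab => mul_left_cancel hab)]
    have h1 : ∀ a ∈ S', lam * unif A m a * (1 - lam * m / N / 2) ≤ P.real {ω | ω s(u, u * a) = true} := by
      intro a _
      refine le_trans ?_ (hL u a)
      have h2 := unif_le A hm.le a
      rw [hA] at h2
      apply one_sub_exp (mul_nonneg hlam.le (unif_nonneg A hm.le a))
      rw [mul_div_assoc]
      exact mul_le_mul_of_nonneg_left h2 hlam.le
    refine le_trans ?_ (sum_le_sum h1)
    rw [← sum_mul, ← mul_sum]
    have h3 : m - M * (m / N) ≤ ∑ a ∈ S', unif A m a := by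
      have h4 : ∑ a ∈ S, unif A m a = m := unif_sum hAne m subset_union_left subset_union_right
      have h5 : ∑ a ∈ S, unif A m a ≤ ∑ a ∈ S', unif A m a +
          ∑ a ∈ F.image (fun y => u⁻¹ * y), unif A m a := by
        rw [← sum_union (by rw [hS']; exact sdiff_disjoint)]
        apply sum_le_sum_of_subset_of_nonneg
        · intro a ha
          rw [hS', mem_union, Finset.mem_sdiff]
          tauto
        · exact fun a _ _ => unif_nonneg A hm.le a
      have h6 : ∑ a ∈ F.image (fun y => u⁻¹ * y), unif A m a ≤ M * (m / N) := by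
        calc ∑ a ∈ F.image (fun y => u⁻¹ * y), unif A m a
            ≤ ∑ _a ∈ F.image (fun y => u⁻¹ * y), m / N := by
              apply sum_le_sum
              intro a _
              have h2 := unif_le A hm.le a
              rwa [hA] at h2
          _ = (F.image (fun y => u⁻¹ * y)).card * (m / N) := by rw [sum_const, nsmul_eq_mul]
          _ ≤ M * (m / N) := by
              apply mul_le_mul_of_nonneg_right _ (by positivity)
              exact_mod_cast card_image_le.trans hF
      linarith
    have h7 : 0 < lam * m - 1 := by linarith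
    have hMN : (lam * m / 2 + M) / N ≤ (lam * m - 1) / (2 * (lam * m)) := by
      rw [div_le_iff₀ h7] at hN2
      rw [div_le_div_iff₀ (by linarith) (by positivity)]
      nlinarith
    have hhalf : (lam * m - 1) / (2 * (lam * m)) ≤ 1 / 2 := by
      rw [div_le_div_iff₀ (by positivity) (by norm_num)]; linarith
    have hM0 : (0 : ℝ) ≤ M := Nat.cast_nonneg M
    have ha : lam * m / N / 2 ≤ 1 / 2 := by
      refine le_trans ?_ (hMN.trans hhalf)
      rw [div_div, mul_comm (N : ℝ) 2, ← div_div]
      apply div_le_div_of_nonneg_right _ (by linarith)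
      linarith
    have h8 : lam * m * (1 - (lam * m / 2 + M) / N) ≤
        lam * (m - M * (m / N)) * (1 - lam * m / N / 2) := by
      have h9 : lam * (m - M * (m / N)) * (1 - lam * m / N / 2) - lam * m * (1 - (lam * m / 2 + M) / N) =
          lam * m * ((M / N) * (lam * m / N / 2)) := by
        field_simp; ring
      have h10 : 0 ≤ lam * m * ((M / N) * (lam * m / N / 2)) := by positivity
      linarith
    have h11 : c ≤ lam * m * (1 - (lam * m / 2 + M) / N) := by
      have h12 : lam * m * ((lam * m / 2 + M) / N) ≤ lam * m * ((lam * m - 1) / (2 * (lam * m))) :=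
        mul_le_mul_of_nonneg_left hMN (by linarith)
      have h13 : lam * m * ((lam * m - 1) / (2 * (lam * m))) = (lam * m - 1) / 2 := by
        field_simp
      rw [hc]
      linarith
    refine h11.trans (h8.trans ?_)
    apply mul_le_mul_of_nonneg_right _ (by linarith)
    exact mul_le_mul_of_nonneg_left h3 hlam.le

end Q295.Thr
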