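import Pool.Agent.Q295.Thr.Seq

/-! The random multigraph and its threshold. -/

set_option autoImplicit false

namespace Q295.Thr

open MeasureTheory ProbabilityTheory Function Finset Classical Filter Topology
open scoped NNReal ENNReal

/-- the open edges of a configuration of multiplicities -/
noncomputable def opn {V : Type*} (ω : Sym2 V → ℕ) : Conf V := fun e => decide (ω e ≠ 0)

theorem opn_meas {V : Type*} : Measurable (opn : (Sym2 V → ℕ) → Conf V) := by
  apply measurable_pi_lambda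
  intro e
  have h1 : Measurable (fun n : ℕ => decide (n ≠ 0)) := measurable_of_countable _
  exact h1.comp (measurable_pi_apply e)

/-- the independent Poisson multiplicities with the means `r` -/
noncomputable def pois {V : Type*} (r : Sym2 V → ℝ≥0) : Measure (Sym2 V → ℕ) :=
  Measure.infinitePi (fun e => poissonMeasure (r e))

instance {V : Type*} (r : Sym2 V → ℝ≥0) : IsProbabilityMeasure (pois r) := by
  unfold pois; infer_instance

theorem pois_ind {V : Type*} (r : Sym2 V → ℝ≥0) : Ind ((pois r).map opn) := by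
  constructor
  · exact Measure.isProbabilityMeasure_map opn_meas.aemeasurable
  · have h1 : iIndepFun (fun e (ω : Sym2 V → ℕ) => decide (ω e ≠ 0)) (pois r) :=
      iIndepFun_infinitePi (X := fun _ (n : ℕ) => decide (n ≠ 0)) (fun _ => measurable_of_countable _)
    rw [iIndepFun_iff_measure_inter_preimage_eq_mul] at h1 ⊢
    intro S sets hsets
    have h2 := h1 S hsets
    rw [Measure.map_apply opn_meas]
    · rw [Set.preimage_iInter₂]
      refine h2.trans ?_
      apply prod_congr rfl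
      intro e he
      rw [Measure.map_apply opn_meas (measurable_pi_apply e (hsets e he))]
      rfl
    · exact Finset.measurableSet_biInter _ (fun e he => measurable_pi_apply e (hsets e he))

theorem pois_edge {V : Type*} (r : Sym2 V → ℝ≥0) (e : Sym2 V) :
    ((pois r).map opn).real {ω | ω e = true} = 1 - Real.exp (-(r e : ℝ)) := by
  have hm : MeasurableSet {ω : Conf V | ω e = true} := (Dep.edge e).meas
  have h1 : opn ⁻¹' {ω : Conf V | ω e = true} = ((fun ω : Sym2 V → ℕ => ω e) ⁻¹' {0})ᶜ := by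
    ext ω
    show decide (ω e ≠ 0) = true ↔ ¬ (ω e = 0)
    simp
  have h0 : MeasurableSet ((fun ω : Sym2 V → ℕ => ω e) ⁻¹' {0}) :=
    measurable_pi_apply e (measurableSet_singleton 0)
  rw [map_measureReal_apply opn_meas hm, h1, probReal_compl_eq_one_sub h0]
  congr 1
  have h2 : (pois r).map (fun ω => ω e) = poissonMeasure (r e) := Measure.infinitePi_map_eval _ e
  rw [← map_measureReal_apply (measurable_pi_apply e) (measurableSet_singleton 0), h2,
    poissonMeasure_real_singleton]
  simp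

section low

variable {V : Type*}

/-- the cluster after the first step -/
theorem cl_first {ω : Conf V} {U : Finset V} {v : V} :
    ∀ h ∈ cl ω U {v}, h = v ∨ ∃ y ∈ U.erase v, ω s(v, y) = true ∧ h ∈ cl ω (U.erase v) {y} := by
  intro h hh
  unfold cl at hh
  rw [mem_filter] at hh
  obtain ⟨hU, x, hx, hxU, hc⟩ := hh
  rw [mem_singleton] at hx
  rw [hx] at hc
  clear hx hxU
  induction hc with
  | refl => exact Or.inl rfl
  | @tail a b _ hab ih =>
    obtain ⟨ha, hb, hop⟩ := hab
    by_cases hbv : b = v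
    · exact Or.inl hbv
    · right
      have hbU : b ∈ U.erase v := mem_erase.2 ⟨hbv, hb⟩
      rcases ih ha with rfl | ⟨y, hy, hy1, hy2⟩
      · refine ⟨b, hbU, hop, ?_⟩
        unfold cl
        rw [mem_filter]
        exact ⟨hbU, b, mem_singleton_self b, hbU, Relation.ReflTransGen.refl⟩
      · refine ⟨y, hy, hy1, ?_⟩
        unfold cl at hy2 ⊢
        rw [mem_filter] at hy2 ⊢
        obtain ⟨i1, w, i2, i3, i4⟩ := hy2
        exact ⟨hbU, w, i2, i3, i4.tail ⟨i1, hbU, hop⟩⟩

theorem mem_cl_dep (U A : Finset V) (h : V) : Dep U.sym2 (fun ω => h ∈ cl ω U A) :=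
  cl_dep U A (fun C => h ∈ C)

/-- the expected size of the cluster -/
theorem expected {P : Measure (Conf V)} (hP : Ind P) {lam : ℝ} (hlam : lam < 1)
    (hdeg : ∀ (U : Finset V) (v : V), v ∉ U → ∑ y ∈ U, P.real {ω | ω s(v, y) = true} ≤ lam) :
    ∀ (n : ℕ) (U : Finset V), U.card = n → ∀ v ∈ U,
      ∑ h ∈ U, P.real {ω | h ∈ cl ω U {v}} ≤ 1 / (1 - lam) := by
  have hprob := hP.prob
  intro n
  induction n with
  | zero =>
    intro U hU v hv
    rw [card_eq_zero.1 hU] at hv
    exact absurd hv (notMem_empty v)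
  | succ n ih =>
    intro U hU v hv
    have hcard : (U.erase v).card = n := by rw [card_erase_of_mem hv, hU]; rfl
    have hterm : ∀ h ∈ U.erase v, P.real {ω | h ∈ cl ω U {v}} ≤
        ∑ y ∈ U.erase v, P.real {ω | ω s(v, y) = true} * P.real {ω | h ∈ cl ω (U.erase v) {y}} := by
      intro h hh
      have hsub : {ω : Conf V | h ∈ cl ω U {v}} ⊆
          ⋃ y ∈ U.erase v, {ω : Conf V | ω s(v, y) = true ∧ h ∈ cl ω (U.erase v) {y}} := by
        intro ω hω
        rw [Set.mem_iUnion₂]
        rcases cl_first h hω with h1 | ⟨y, hy, h1, h2⟩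
        · exact absurd h1 (ne_of_mem_erase hh)
        · exact ⟨y, hy, h1, h2⟩
      refine (measureReal_mono hsub (measure_ne_top _ _)).trans ((measureReal_biUnion_finset_le _ _).trans
        (le_of_eq ?_))
      apply sum_congr rfl
      intro y hy
      apply hP.mul _ (Dep.edge s(v, y)) (mem_cl_dep _ _ _)
      rw [disjoint_singleton_left]
      intro hc
      exact notMem_erase v U (Finset.mk_mem_sym2_iff.1 hc).1
    rw [← add_sum_erase U _ hv]
    have h1 : P.real {ω | v ∈ cl ω U {v}} ≤ 1 := measureReal_le_one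
    have h2 : ∑ h ∈ U.erase v, P.real {ω | h ∈ cl ω U {v}} ≤ lam * (1 / (1 - lam)) := by
      refine (sum_le_sum hterm).trans ?_
      rw [sum_comm]
      calc ∑ y ∈ U.erase v, ∑ h ∈ U.erase v, P.real {ω | ω s(v, y) = true} *
            P.real {ω | h ∈ cl ω (U.erase v) {y}}
          = ∑ y ∈ U.erase v, P.real {ω | ω s(v, y) = true} *
            ∑ h ∈ U.erase v, P.real {ω | h ∈ cl ω (U.erase v) {y}} := by
            apply sum_congr rfl; intro y _; rw [mul_sum]
        _ ≤ ∑ y ∈ U.erase v, P.real {ω | ω s(v, y) = true} * (1 / (1 - lam)) := by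
            apply sum_le_sum
            intro y hy
            exact mul_le_mul_of_nonneg_left (ih (U.erase v) hcard y hy) measureReal_nonneg
        _ = (∑ y ∈ U.erase v, P.real {ω | ω s(v, y) = true}) * (1 / (1 - lam)) := by rw [sum_mul]
        _ ≤ lam * (1 / (1 - lam)) := by
            apply mul_le_mul_of_nonneg_right (hdeg _ v (notMem_erase v U))
            apply div_nonneg zero_le_one; linarith
    have h3 : 1 + lam * (1 / (1 - lam)) = 1 / (1 - lam) := by
      have : 1 - lam ≠ 0 := by linarith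
      field_simp
      ring
    linarith

theorem markov {P : Measure (Conf V)} (hP : Ind P) {lam : ℝ} (hlam : lam < 1)
    (hdeg : ∀ (U : Finset V) (v : V), v ∉ U → ∑ y ∈ U, P.real {ω | ω s(v, y) = true} ≤ lam)
    (U : Finset V) {v : V} (hv : v ∈ U) (N : ℕ) :
    N * P.real {ω | N ≤ (cl ω U {v}).card} ≤ 1 / (1 - lam) := by
  have hprob := hP.prob
  have h1 := expected hP hlam hdeg _ U rfl v hv
  have h2 : ∀ h : V, MeasurableSet {ω : Conf V | h ∈ cl ω U {v}} := fun h => (mem_cl_dep U {v} h).meas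
  have h3 : ∫ ω, ∑ h ∈ U, Set.indicator {ω : Conf V | h ∈ cl ω U {v}} (fun _ => (1 : ℝ)) ω ∂P =
      ∑ h ∈ U, P.real {ω | h ∈ cl ω U {v}} := by
    rw [integral_finsetSum]
    · apply sum_congr rfl
      intro h _
      rw [integral_indicator (h2 h)]
      simp
    · intro h _
      exact (integrable_const (1 : ℝ)).indicator (h2 h)
  have h4 : ∀ ω : Conf V, ∑ h ∈ U, Set.indicator {ω : Conf V | h ∈ cl ω U {v}} (fun _ => (1 : ℝ)) ω =
      (cl ω U {v}).card := by
    intro ω
    simp only [Set.indicator_apply]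
    have h5 : ∀ h, (ω ∈ {ω : Conf V | h ∈ cl ω U {v}}) = (h ∈ cl ω U {v}) := fun h => rfl
    simp only [h5]
    rw [← sum_filter, sum_const, nsmul_eq_mul, mul_one]
    congr 2
    ext h
    rw [mem_filter]
    constructor
    · exact fun hh => hh.2
    · exact fun hh => ⟨(mem_filter.1 hh).1, hh⟩
  have h5 : Integrable (fun ω : Conf V => ((cl ω U {v}).card : ℝ)) P := by
    rw [← funext h4]
    exact integrable_finsetSum _ (fun h _ => (integrable_const (1 : ℝ)).indicator (h2 h))
  have h6 := mul_meas_ge_le_integral_of_nonneg (μ := P)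
    (Eventually.of_forall (fun ω : Conf V => (Nat.cast_nonneg (cl ω U {v}).card : (0 : ℝ) ≤ _))) h5 N
  have h7 : ∫ ω : Conf V, ((cl ω U {v}).card : ℝ) ∂P = ∑ h ∈ U, P.real {ω | h ∈ cl ω U {v}} := by
    rw [← h3]
    congr 1
    funext ω
    exact (h4 ω).symm
  have h8 : {ω : Conf V | (N : ℝ) ≤ ((cl ω U {v}).card : ℝ)} = {ω : Conf V | N ≤ (cl ω U {v}).card} := by
    ext ω
    show (N : ℝ) ≤ ((cl ω U {v}).card : ℝ) ↔ N ≤ (cl ω U {v}).card
    exact Nat.cast_le
  rw [h7, h8] at h6
  exact h6.trans h1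

end low

/-- all the vertices connected to `v` by open edges -/
def Cf {V : Type*} (ω : Conf V) (v : V) : Set V :=
  {h | Relation.ReflTransGen (fun a b => ω s(a, b) = true) v h}

theorem cl_sub_Cf {V : Type*} (ω : Conf V) (U : Finset V) (v : V) : ↑(cl ω U {v}) ⊆ Cf ω v := by
  intro h hh
  rw [mem_coe] at hh
  unfold cl at hh
  rw [mem_filter] at hh
  obtain ⟨-, x, hx, -, hc⟩ := hh
  rw [mem_singleton] at hx
  rw [hx] at hc
  exact Relation.ReflTransGen.mono (fun a b hab => hab.2.2) _ _ hc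

/-- an exhaustion -/
theorem exists_exh (V : Type*) [Countable V] : ∃ U : ℕ → Finset V, Monotone U ∧ ∀ v, ∃ n, v ∈ U n := by
  obtain ⟨e, he⟩ := exists_injective_nat V
  have hfin : ∀ n, (e ⁻¹' Set.Iio n).Finite := fun n => (Set.finite_Iio n).preimage he.injOn
  refine ⟨fun n => (hfin n).toFinset, ?_, ?_⟩
  · intro n m hnm v hv
    simp only [Set.Finite.mem_toFinset, Set.mem_preimage, Set.mem_Iio] at hv ⊢
    omega
  · intro v
    exact ⟨e v + 1, by simp⟩

theorem mem_cl_eventually {V : Type*} {U : ℕ → Finset V} (hU : Monotone U) (hex : ∀ v, ∃ n, v ∈ U n)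
    {ω : Conf V} {v h : V} (hh : h ∈ Cf ω v) : ∃ n, ∀ m ≥ n, h ∈ cl ω (U m) {v} := by
  have hh' : Relation.ReflTransGen (fun a b => ω s(a, b) = true) v h := hh
  induction hh' with
  | refl =>
    obtain ⟨n, hn⟩ := hex v
    refine ⟨n, fun m hm => ?_⟩
    unfold cl
    rw [mem_filter]
    exact ⟨hU hm hn, v, mem_singleton_self v, hU hm hn, Relation.ReflTransGen.refl⟩
  | @tail a b hva hab ih =>
    obtain ⟨n, hn⟩ := ih hva
    obtain ⟨n', hn'⟩ := hex b
    refine ⟨max n n', fun m hm => ?_⟩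
    have h1 := hn m ((le_max_left _ _).trans hm)
    have h2 : b ∈ U m := hU ((le_max_right _ _).trans hm) hn'
    unfold cl at h1 ⊢
    rw [mem_filter] at h1 ⊢
    obtain ⟨i1, w, i2, i3, i4⟩ := h1
    exact ⟨h2, w, i2, i3, i4.tail ⟨i1, h2, hab⟩⟩

theorem Cf_infinite_sub {V : Type*} {U : ℕ → Finset V} (hU : Monotone U) (hex : ∀ v, ∃ n, v ∈ U n)
    {ω : Conf V} {v : V} (h : (Cf ω v).Infinite) (N : ℕ) : ∃ n, N ≤ (cl ω (U n) {v}).card := by
  obtain ⟨F, hF, hFN⟩ := h.exists_subset_card_eq N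
  have h1 : ∀ x ∈ F, ∃ n, ∀ m ≥ n, x ∈ cl ω (U m) {v} := fun x hx => mem_cl_eventually hU hex (hF hx)
  have h2 : ∃ n, ∀ x ∈ F, x ∈ cl ω (U n) {v} := by
    choose! g hg using h1
    refine ⟨F.sup g, fun x hx => hg x hx _ (le_sup hx)⟩
  obtain ⟨n, hn⟩ := h2
  exact ⟨n, hFN ▸ card_le_card hn⟩

/-- no infinite cluster when the mean degree is less than one -/
theorem subcritical {V : Type*} [Countable V] {P : Measure (Conf V)} (hP : Ind P) {lam : ℝ} (hlam : lam < 1)
    (hdeg : ∀ (U : Finset V) (v : V), v ∉ U → ∑ y ∈ U, P.real {ω | ω s(v, y) = true} ≤ lam) :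
    P {ω | ∃ v, (Cf ω v).Infinite} = 0 := by
  have hprob := hP.prob
  obtain ⟨U, hU, hex⟩ := exists_exh V
  have h1 : {ω : Conf V | ∃ v, (Cf ω v).Infinite} = ⋃ v, {ω | (Cf ω v).Infinite} := by
    ext ω; simp
  rw [h1, measure_iUnion_null_iff]
  intro v
  obtain ⟨n₀, hn₀⟩ := hex v
  have hl0 : 0 ≤ 1 / (1 - lam) := by apply div_nonneg zero_le_one; linarith
  have h2 : ∀ N : ℕ, P {ω | (Cf ω v).Infinite} ≤ ENNReal.ofReal (1 / (1 - lam) / (N + 1 : ℕ)) := by
    intro N
    have hsub : {ω : Conf V | (Cf ω v).Infinite} ⊆ ⋃ n, {ω | N + 1 ≤ (cl ω (U (n + n₀)) {v}).card} := by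
      intro ω hω
      obtain ⟨n, hn⟩ := Cf_infinite_sub (U := fun n => U (n + n₀))
        (fun a b hab => hU (by omega)) (fun w => by
          obtain ⟨k, hk⟩ := hex w
          exact ⟨k, hU (by omega) hk⟩) hω (N + 1)
      exact Set.mem_iUnion.2 ⟨n, hn⟩
    have hmono : Monotone (fun n => {ω : Conf V | N + 1 ≤ (cl ω (U (n + n₀)) {v}).card}) := by
      intro a b hab ω hω
      have h3 : N + 1 ≤ (cl ω (U (a + n₀)) {v}).card := hω
      have hUab : U (a + n₀) ⊆ U (b + n₀) := hU (by omega)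
      refine h3.trans (card_le_card ?_)
      intro y hy
      unfold cl at hy ⊢
      rw [mem_filter] at hy ⊢
      obtain ⟨i1, w, i2, i3, i4⟩ := hy
      exact ⟨hUab i1, w, i2, hUab i3, i4.mono hUab⟩
    refine (measure_mono hsub).trans ?_
    rw [hmono.measure_iUnion]
    apply iSup_le
    intro n
    have h3 := markov hP hlam hdeg (U (n + n₀)) (hU (by omega) hn₀) (N + 1)
    rw [← ofReal_measureReal]
    apply ENNReal.ofReal_le_ofReal
    rw [le_div_iff₀ (by positivity)]
    linarith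
  have h3 : Tendsto (fun N : ℕ => ENNReal.ofReal (1 / (1 - lam) / (N + 1 : ℕ))) atTop (𝓝 0) := by
    rw [← ENNReal.ofReal_zero]
    apply ENNReal.tendsto_ofReal
    exact (tendsto_const_div_atTop_nhds_zero_nat _).comp (tendsto_add_atTop_nat 1)
  exact le_antisymm (ge_of_tendsto' h3 h2) zero_le

/-- an infinite cluster with positive probability -/
theorem supercritical {V : Type*} {P : Measure (Conf V)} (hP : Ind P) {q : ℝ} {v : V}
    (h : ∀ N : ℕ, ∃ K : Finset V, q ≤ P.real {ω | N ≤ (cl ω K {v}).card}) :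
    ENNReal.ofReal q ≤ P {ω | (Cf ω v).Infinite} := by
  have hprob := hP.prob
  choose K hK using h
  set E : ℕ → Set (Conf V) := fun N => {ω | N ≤ (cl ω (K N) {v}).card} with hE
  have hEm : ∀ N, MeasurableSet (E N) := fun N => (cl_dep (K N) {v} (fun C => N ≤ C.card)).meas
  set F : ℕ → Set (Conf V) := fun N => ⋃ k, E (k + N) with hF
  have hFm : ∀ N, MeasurableSet (F N) := fun N => MeasurableSet.iUnion (fun k => hEm _)
  have hanti : Antitone F := by
    intro a b hab ω hω
    obtain ⟨k, hk⟩ := Set.mem_iUnion.1 hω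
    refine Set.mem_iUnion.2 ⟨k + (b - a), ?_⟩
    rw [show k + (b - a) + a = k + b by omega]
    exact hk
  have hsub : ⋂ N, F N ⊆ {ω | (Cf ω v).Infinite} := by
    intro ω hω
    show (Cf ω v).Infinite
    intro hfin
    have h1 := Set.mem_iInter.1 hω (hfin.toFinset.card + 1)
    obtain ⟨k, hk⟩ := Set.mem_iUnion.1 h1
    have h2 : k + (hfin.toFinset.card + 1) ≤ (cl ω (K (k + (hfin.toFinset.card + 1))) {v}).card := hk
    have h3 : cl ω (K (k + (hfin.toFinset.card + 1))) {v} ⊆ hfin.toFinset := by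
      intro y hy
      rw [Set.Finite.mem_toFinset]
      exact cl_sub_Cf ω _ v (mem_coe.2 hy)
    have h4 := card_le_card h3
    omega
  refine le_trans ?_ (measure_mono hsub)
  rw [hanti.measure_iInter (fun N => (hFm N).nullMeasurableSet) ⟨0, measure_ne_top _ _⟩]
  apply le_iInf
  intro N
  have h1 : E N ⊆ F N := fun ω hω => Set.mem_iUnion.2 ⟨0, by rwa [Nat.zero_add]⟩
  refine le_trans ?_ (measure_mono h1)
  rw [← ofReal_measureReal]
  exact ENNReal.ofReal_le_ofReal (hK N)

end Q295.Thr
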