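import Mathlib

/-! Percolation with independent edges of a complete graph: clusters inside finite sets of vertices,
independence of events which depend on disjoint sets of edges, and the exploration of a cluster. -/

set_option autoImplicit false

namespace Q295.Thr

open MeasureTheory ProbabilityTheory Function Finset Classical

variable {V : Type*}

/-- a configuration -/
abbrev Conf (V : Type*) := Sym2 V → Bool

/-- the property `Q` depends on the edges in `K` only -/
def Dep (K : Finset (Sym2 V)) (Q : Conf V → Prop) : Prop :=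
  ∀ ω ω' : Conf V, (∀ e ∈ K, ω e = ω' e) → (Q ω ↔ Q ω')

theorem Dep.mono {K K' : Finset (Sym2 V)} {Q : Conf V → Prop} (h : Dep K Q) (hK : K ⊆ K') : Dep K' Q :=
  fun ω ω' hω => h ω ω' (fun e he => hω e (hK he))

theorem Dep.and {K : Finset (Sym2 V)} {Q Q' : Conf V → Prop} (h : Dep K Q) (h' : Dep K Q') :
    Dep K (fun ω => Q ω ∧ Q' ω) := fun ω ω' hω => and_congr (h ω ω' hω) (h' ω ω' hω)

theorem Dep.not {K : Finset (Sym2 V)} {Q : Conf V → Prop} (h : Dep K Q) :
    Dep K (fun ω => ¬ Q ω) := fun ω ω' hω => not_congr (h ω ω' hω)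

theorem Dep.edge (e : Sym2 V) : Dep {e} (fun ω => ω e = true) := fun ω ω' hω => by
  show ω e = true ↔ ω' e = true
  rw [hω e (mem_singleton_self e)]

/-- extend a configuration on `K` by `false` -/
noncomputable def fill (K : Finset (Sym2 V)) (p : ↥K → Bool) : Conf V := fun e => if h : e ∈ K then p ⟨e, h⟩ else false

theorem Dep.eq_pre {K : Finset (Sym2 V)} {Q : Conf V → Prop} (h : Dep K Q) :
    {ω | Q ω} = (fun (ω : Conf V) (e : ↥K) => ω e) ⁻¹' {p | Q (fill K p)} := by
  ext ω
  show Q ω ↔ Q (fill K fun e => ω e)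
  apply h
  intro e he
  simp [fill, he]

theorem Dep.meas {K : Finset (Sym2 V)} {Q : Conf V → Prop} (h : Dep K Q) : MeasurableSet {ω | Q ω} := by
  rw [h.eq_pre]
  exact (measurable_pi_lambda _ (fun e => measurable_pi_apply _)) (Set.toFinite _).measurableSet

variable {P : Measure (Conf V)}

/-- the law of a percolation with independent edges -/
structure Ind (P : Measure (Conf V)) : Prop where
  prob : IsProbabilityMeasure P
  ind : iIndepFun (fun e (ω : Conf V) => ω e) P

theorem Ind.mul (h : Ind P) {K K' : Finset (Sym2 V)} (hK : Disjoint K K') {Q Q' : Conf V → Prop}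
    (hQ : Dep K Q) (hQ' : Dep K' Q') :
    P.real {ω | Q ω ∧ Q' ω} = P.real {ω | Q ω} * P.real {ω | Q' ω} := by
  have h1 := h.ind.indepFun_finset K K' hK (fun e => measurable_pi_apply e)
  have h2 := h1.measure_inter_preimage_eq_mul {p | Q (fill K p)} {p | Q' (fill K' p)}
    (Set.toFinite _).measurableSet (Set.toFinite _).measurableSet
  rw [← hQ.eq_pre, ← hQ'.eq_pre] at h2
  have h3 : {ω | Q ω ∧ Q' ω} = {ω | Q ω} ∩ {ω | Q' ω} := rfl
  rw [h3]
  unfold Measure.real
  rw [h2, ENNReal.toReal_mul]

/-- connected inside `U` -/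
def Cn (ω : Conf V) (U : Finset V) : V → V → Prop :=
  Relation.ReflTransGen (fun a b => a ∈ U ∧ b ∈ U ∧ ω s(a, b) = true)

theorem Cn.mono {ω : Conf V} {U U' : Finset V} (hU : U ⊆ U') {x y : V} (h : Cn ω U x y) : Cn ω U' x y :=
  Relation.ReflTransGen.mono (fun _ _ hab => ⟨hU hab.1, hU hab.2.1, hab.2.2⟩) _ _ h

theorem Cn.congr {ω ω' : Conf V} {U : Finset V} (h : ∀ e ∈ U.sym2, ω e = ω' e) {x y : V}
    (hc : Cn ω U x y) : Cn ω' U x y :=
  Relation.ReflTransGen.mono (fun a b hab => ⟨hab.1, hab.2.1, by
    rw [← h s(a, b) (Finset.mk_mem_sym2_iff.2 ⟨hab.1, hab.2.1⟩)]; exact hab.2.2⟩) _ _ hc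

/-- the vertices of `U` which are connected inside `U` to a vertex of `A` -/
noncomputable def cl (ω : Conf V) (U A : Finset V) : Finset V :=
  U.filter (fun y => ∃ x ∈ A, x ∈ U ∧ Cn ω U x y)

theorem cl_congr {ω ω' : Conf V} {U : Finset V} (h : ∀ e ∈ U.sym2, ω e = ω' e) (A : Finset V) :
    cl ω U A = cl ω' U A := by
  unfold cl
  apply filter_congr
  intro y _
  constructor
  · rintro ⟨x, h1, h2, h3⟩
    exact ⟨x, h1, h2, h3.congr h⟩
  · rintro ⟨x, h1, h2, h3⟩
    exact ⟨x, h1, h2, h3.congr (fun e he => (h e he).symm)⟩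

theorem cl_dep (U A : Finset V) (R : Finset V → Prop) : Dep U.sym2 (fun ω => R (cl ω U A)) :=
  fun ω ω' hω => by
    show R (cl ω U A) ↔ R (cl ω' U A)
    rw [cl_congr hω]

theorem subset_cl {ω : Conf V} {U A : Finset V} (hA : A ⊆ U) : A ⊆ cl ω U A := fun x hx => by
  unfold cl
  rw [mem_filter]
  exact ⟨hA hx, x, hx, hA hx, Relation.ReflTransGen.refl⟩

/-- the neighbours of `v` in `W` -/
noncomputable def nb (ω : Conf V) (v : V) (W : Finset V) : Finset V := W.filter (fun y => ω s(v, y) = true)

theorem cl_step {ω : Conf V} {U A W : Finset V} {v : V} (hv : v ∈ A) (hvU : v ∈ U) (hA : A ⊆ U) (hW : W ⊆ U)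
    (hvW : v ∉ W) : insert v (cl ω (U.erase v) (A.erase v ∪ nb ω v W)) ⊆ cl ω U A := by
  intro y hy
  rw [mem_insert] at hy
  rcases hy with rfl | hy
  · exact subset_cl hA hv
  · unfold cl at hy ⊢
    rw [mem_filter] at hy ⊢
    obtain ⟨h1, x, h2, h3, h4⟩ := hy
    refine ⟨mem_of_mem_erase h1, ?_⟩
    have h5 : Cn ω U x y := h4.mono (erase_subset _ _)
    rw [mem_union] at h2
    rcases h2 with h2 | h2
    · exact ⟨x, mem_of_mem_erase h2, mem_of_mem_erase h3, h5⟩
    · unfold nb at h2
      rw [mem_filter] at h2
      refine ⟨v, hv, hvU, ?_⟩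
      exact Relation.ReflTransGen.head ⟨hvU, hW h2.1, h2.2⟩ h5

theorem cl_card {ω : Conf V} {U A W : Finset V} {v : V} (hv : v ∈ A) (hvU : v ∈ U) (hA : A ⊆ U) (hW : W ⊆ U)
    (hvW : v ∉ W) : (cl ω (U.erase v) (A.erase v ∪ nb ω v W)).card + 1 ≤ (cl ω U A).card := by
  rw [← card_insert_of_notMem (a := v)]
  · exact card_le_card (cl_step hv hvU hA hW hvW)
  · intro h
    unfold cl at h
    rw [mem_filter] at h
    exact notMem_erase v U h.1

/-- revealing the edges from `v` to `W` one after the other -/
theorem reveal (h : Ind P) {U T : Finset V} {v : V} {s : ℝ} (R : Finset V → Prop)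
    (hT : ∀ A' : Finset V, A' ⊆ T → P.real {ω | R (cl ω U A')} ≤ s ^ A'.card) (hvU : v ∉ U) (hvT : v ∉ T)
    (W : Finset V) : ∀ A' : Finset V, A' ⊆ T → W ⊆ T → Disjoint A' W →
      P.real {ω | R (cl ω U (A' ∪ nb ω v W))} ≤
        s ^ A'.card * ∏ y ∈ W, (1 - P.real {ω | ω s(v, y) = true} * (1 - s)) := by
  induction W using Finset.induction_on with
  | empty =>
    intro A' hA' _ _
    simp only [nb, filter_empty, union_empty, prod_empty, mul_one]
    exact hT A' hA'
  | insert y W hy ih =>
    intro A' hA' hW hd
    have hyU : y ∈ T := hW (mem_insert_self y W)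
    have hWU : W ⊆ T := fun z hz => hW (mem_insert_of_mem hz)
    have hd1 : Disjoint A' W := disjoint_of_subset_right (subset_insert y W) hd
    have hyA : y ∉ A' := fun hc => disjoint_left.1 hd hc (mem_insert_self y W)
    have hd2 : Disjoint (insert y A') W := by
      rw [disjoint_insert_left]; exact ⟨hy, hd1⟩
    have hA2 : insert y A' ⊆ T := insert_subset hyU hA'
    have ih1 := ih A' hA' hWU hd1
    have ih2 := ih (insert y A') hA2 hWU hd2
    rw [card_insert_of_notMem hyA, pow_succ] at ih2
    have hnb1 : ∀ ω : Conf V, ω s(v, y) = true → A' ∪ nb ω v (insert y W) = insert y A' ∪ nb ω v W := by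
      intro ω hω
      unfold nb
      rw [filter_insert, if_pos hω, union_insert, insert_union]
    have hnb2 : ∀ ω : Conf V, ¬ ω s(v, y) = true → A' ∪ nb ω v (insert y W) = A' ∪ nb ω v W := by
      intro ω hω
      unfold nb
      rw [filter_insert, if_neg hω]
    -- the events depend on other edges
    set K : Finset (Sym2 V) := W.image (fun z => s(v, z)) ∪ U.sym2 with hK
    have hdep : ∀ B : Finset V, Dep K (fun ω => R (cl ω U (B ∪ nb ω v W))) := by
      intro B ω ω' hω
      have h1 : nb ω v W = nb ω' v W := by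
        unfold nb
        apply filter_congr
        intro z hz
        rw [hω s(v, z) (mem_union_left _ (mem_image_of_mem _ hz))]
      show R (cl ω U (B ∪ nb ω v W)) ↔ R (cl ω' U (B ∪ nb ω' v W))
      rw [h1, cl_congr (fun e he => hω e (mem_union_right _ he))]
    have hdisj : Disjoint {s(v, y)} K := by
      rw [disjoint_singleton_left, hK, mem_union, not_or]
      constructor
      · intro hc
        obtain ⟨z, hz, hz'⟩ := mem_image.1 hc
        rw [Sym2.eq_iff] at hz'
        rcases hz' with ⟨-, rfl⟩ | ⟨rfl, rfl⟩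
        · exact hy hz
        · exact hy hz
      · intro hc
        exact hvU (Finset.mk_mem_sym2_iff.1 hc).1
    have hsplit : {ω | R (cl ω U (A' ∪ nb ω v (insert y W)))} =
        {ω | ω s(v, y) = true ∧ R (cl ω U (insert y A' ∪ nb ω v W))} ∪
        {ω | ¬ ω s(v, y) = true ∧ R (cl ω U (A' ∪ nb ω v W))} := by
      ext ω
      by_cases hω : ω s(v, y) = true
      · show R _ ↔ (_ ∧ _) ∨ (_ ∧ _)
        rw [hnb1 ω hω]
        tauto
      · show R _ ↔ (_ ∧ _) ∨ (_ ∧ _)
        rw [hnb2 ω hω]
        tauto
    have h1 := h.mul hdisj (Dep.edge s(v, y)) (hdep (insert y A'))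
    have h2 := h.mul hdisj (Dep.edge s(v, y)).not (hdep A')
    have hprob := h.prob
    have h3 : P.real {ω | ¬ ω s(v, y) = true} = 1 - P.real {ω | ω s(v, y) = true} :=
      probReal_compl_eq_one_sub (Dep.edge s(v, y)).meas
    have hp0 : 0 ≤ P.real {ω | ω s(v, y) = true} := measureReal_nonneg
    have hp1 : P.real {ω | ω s(v, y) = true} ≤ 1 := measureReal_le_one
    rw [prod_insert hy, hsplit]
    refine (measureReal_union_le _ _).trans ?_
    rw [h1, h2, h3]
    set p := P.real {ω | ω s(v, y) = true}
    set Q := ∏ y ∈ W, (1 - P.real {ω | ω s(v, y) = true} * (1 - s))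
    calc p * P.real {ω | R (cl ω U (insert y A' ∪ nb ω v W))} +
          (1 - p) * P.real {ω | R (cl ω U (A' ∪ nb ω v W))}
        ≤ p * (s ^ A'.card * s * Q) + (1 - p) * (s ^ A'.card * Q) :=
          add_le_add (mul_le_mul_of_nonneg_left ih2 hp0)
            (mul_le_mul_of_nonneg_left ih1 (by linarith))
      _ = s ^ A'.card * ((1 - p * (1 - s)) * Q) := by ring

/-- exploration: the cluster is large with a probability which is bounded below -/
theorem explore (h : Ind P) {s : ℝ} (hs0 : 0 ≤ s) {M : ℕ} (B : ℕ → Finset V)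
    (hB : ∀ j, B j ⊆ B (j + 1))
    (hyp : ∀ j < M, ∀ v ∈ B j, ∀ F : Finset V, F.card ≤ M → v ∈ F →
      ∏ y ∈ B (j + 1) \ F, (1 - P.real {ω | ω s(v, y) = true} * (1 - s)) ≤ s) :
    ∀ n, ∀ A D : Finset V, D.card + n = M → A ⊆ B D.card → Disjoint A D →
      P.real {ω | (cl ω (B M \ D) A).card + D.card < M} ≤ s ^ A.card := by
  have hBm : Monotone B := monotone_nat_of_le_succ hB
  have hprob := h.prob
  intro n
  induction n with
  | zero =>
    intro A D hD _ _
    have : {ω : Conf V | (cl ω (B M \ D) A).card + D.card < M} = ∅ := by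
      ext ω
      constructor
      · intro hc
        have hc' : (cl ω (B M \ D) A).card + D.card < M := hc
        omega
      · intro hc
        exact absurd hc (Set.notMem_empty ω)
    rw [this, measureReal_empty]
    exact pow_nonneg hs0 _
  | succ n ih =>
    intro A D hD hA hAD
    have hAU : A ⊆ B M \ D := by
      intro x hx
      rw [Finset.mem_sdiff]
      exact ⟨hBm (by omega) (hA hx), fun hc => disjoint_left.1 hAD hx hc⟩
    rcases A.eq_empty_or_nonempty with rfl | ⟨v, hv⟩
    · rw [card_empty, pow_zero]; exact measureReal_le_one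
    · by_cases hlarge : M ≤ A.card + D.card
      · have : {ω : Conf V | (cl ω (B M \ D) A).card + D.card < M} = ∅ := by
          ext ω
          constructor
          · intro hc
            have hc' : (cl ω (B M \ D) A).card + D.card < M := hc
            have := card_le_card (subset_cl (ω := ω) hAU)
            omega
          · intro hc
            exact absurd hc (Set.notMem_empty ω)
        rw [this, measureReal_empty]
        exact pow_nonneg hs0 _
      · push Not at hlarge
        set W := B (D.card + 1) \ (A ∪ D) with hW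
        have hvU : v ∈ B M \ D := hAU hv
        have hvD : v ∉ D := (Finset.mem_sdiff.1 hvU).2
        have hWU : W ⊆ B M \ D := by
          intro x hx
          rw [hW, Finset.mem_sdiff, mem_union, not_or] at hx
          rw [Finset.mem_sdiff]
          exact ⟨hBm (by omega) hx.1, hx.2.2⟩
        have hvW : v ∉ W := by
          rw [hW, Finset.mem_sdiff, mem_union]
          exact fun hc => hc.2 (Or.inl hv)
        have hU' : (B M \ D).erase v = B M \ insert v D := by
          ext x
          simp only [mem_erase, Finset.mem_sdiff, mem_insert, not_or]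
          tauto
        have hcD : (insert v D).card = D.card + 1 := card_insert_of_notMem hvD
        -- the induction hypothesis, for subsets of the next ball
        have hR : ∀ A' : Finset V, A' ⊆ B (D.card + 1) \ insert v D →
            P.real {ω | (cl ω ((B M \ D).erase v) A').card + (D.card + 1) < M} ≤ s ^ A'.card := by
          intro A' hA'
          rw [hU', ← hcD]
          apply ih A' (insert v D) (by omega)
          · rw [hcD]; exact hA'.trans sdiff_subset
          · exact disjoint_of_subset_left hA' sdiff_disjoint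
        have key := reveal h (U := (B M \ D).erase v) (T := B (D.card + 1) \ insert v D) (v := v) (s := s)
          (fun C => C.card + (D.card + 1) < M) hR (notMem_erase v _)
          (fun hc => (Finset.mem_sdiff.1 hc).2 (mem_insert_self v D))
        have hA1 : A.erase v ⊆ B (D.card + 1) \ insert v D := by
          intro x hx
          rw [mem_erase] at hx
          rw [Finset.mem_sdiff, mem_insert, not_or]
          exact ⟨hB _ (hA hx.2), hx.1, fun hc => disjoint_left.1 hAD hx.2 hc⟩
        have hW1 : W ⊆ B (D.card + 1) \ insert v D := by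
          intro x hx
          rw [hW, Finset.mem_sdiff, mem_union, not_or] at hx
          rw [Finset.mem_sdiff, mem_insert, not_or]
          exact ⟨hx.1, fun hc => hx.2.1 (hc ▸ hv), hx.2.2⟩
        have hd : Disjoint (A.erase v) W := by
          rw [disjoint_left]
          intro x hx hx'
          rw [hW, Finset.mem_sdiff, mem_union, not_or] at hx'
          exact hx'.2.1 (mem_of_mem_erase hx)
        have h1 := key W (A.erase v) hA1 hW1 hd
        have h2 := hyp D.card (by omega) v (hA hv) (A ∪ D) ((card_union_le _ _).trans hlarge.le)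
          (mem_union_left _ hv)
        have h3 : {ω : Conf V | (cl ω (B M \ D) A).card + D.card < M} ⊆
            {ω | (cl ω ((B M \ D).erase v) (A.erase v ∪ nb ω v W)).card + (D.card + 1) < M} := by
          intro ω hω
          have h4 := cl_card (ω := ω) hv hvU hAU hWU hvW
          show _ + _ < M
          have h5 : (cl ω (B M \ D) A).card + D.card < M := hω
          omega
        refine (measureReal_mono h3).trans (h1.trans ?_)
        have h4 : A.card = (A.erase v).card + 1 := by
          rw [card_erase_of_mem hv]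
          have := card_pos.2 ⟨v, hv⟩
          omega
        rw [h4, pow_succ]
        exact mul_le_mul_of_nonneg_left h2 (pow_nonneg hs0 _)

end Q295.Thr
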