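import Pool.Agent.Q295.Thr.First

/-! The measure with infinitely many scales. -/

set_option autoImplicit false

namespace Q295.Thr

open MeasureTheory ProbabilityTheory Function Finset Classical Filter Topology

variable {Γ : Type*} [Group Γ]

theorem Hp.mono_q {lam : ℝ} {W : Γ → ℝ} {M : ℕ} {q q' : ℝ} (h : Hp lam W M q) (hq : q' ≤ q) :
    Hp lam W M q' := by
  obtain ⟨K, h1, h2⟩ := h
  exact ⟨K, h1, fun P hP hL v => hq.trans (h2 P hP hL v)⟩

theorem unif_sum_le {A : Finset Γ} (hA : A.Nonempty) {m : ℝ} (hm : 0 ≤ m) (F : Finset Γ) :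
    ∑ g ∈ F, unif A m g ≤ m := by
  have h1 := unif_sum hA m (F := F ∪ (A ∪ A.image (·⁻¹)))
    (subset_union_left.trans subset_union_right) (subset_union_right.trans subset_union_right)
  calc ∑ g ∈ F, unif A m g ≤ ∑ g ∈ F ∪ (A ∪ A.image (·⁻¹)), unif A m g :=
        sum_le_sum_of_subset_of_nonneg subset_union_left (fun g _ _ => unif_nonneg A hm g)
    _ = m := h1

/-- the requirements at the scale `k` -/
structure Ok (lam m₀ c q : ℝ) (M₀ k : ℕ) (W : Γ → ℝ) : Prop where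
  nonneg : ∀ g, 0 ≤ W g
  inv : ∀ g, W g⁻¹ = W g
  sum : ∀ F : Finset Γ, ∑ g ∈ F, W g ≤ m₀ + ∑ j ∈ range k, c * (2 / 3) ^ j
  hp : Hp lam W (2 ^ k * M₀) (q * (1 / 2 + 1 / 2 * (3 / 4) ^ k))

theorem ok_next [Infinite Γ] {lam m₀ c q : ℝ} {M₀ k : ℕ} (hlam : 0 < lam) (hc : 0 < c) (hq : 0 < q)
    (hM : 1 ≤ M₀) (hbig : 8 ≤ q * lam * c / 8 * M₀) {W : Γ → ℝ} (h : Ok lam m₀ c q M₀ k W) :
    ∃ W' : Γ → ℝ, Ok lam m₀ c q M₀ (k + 1) W' ∧ ∀ g, W g ≤ W' g := by
  set m : ℝ := c * (2 / 3) ^ k with hm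
  set r : ℝ := q * (1 / 2 + 1 / 2 * (3 / 4) ^ k) with hr
  have hm0 : 0 < m := by positivity
  have hr0 : 0 < r := by positivity
  have hM2 : 1 ≤ 2 ^ k * M₀ := Nat.one_le_iff_ne_zero.2 (by positivity)
  obtain ⟨A, hA, -, hAp⟩ := step hlam hm0 hr0 hM2 h.nonneg h.hp
  refine ⟨fun g => W g + unif A m g, ⟨?_, ?_, ?_, ?_⟩, ?_⟩
  · exact fun g => add_nonneg (h.nonneg g) (unif_nonneg A hm0.le g)
  · intro g
    show W g⁻¹ + unif A m g⁻¹ = W g + unif A m g
    rw [h.inv, unif_inv]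
  · intro F
    rw [sum_add_distrib, sum_range_succ, ← add_assoc]
    exact add_le_add (h.sum F) (unif_sum_le hA hm0.le F)
  · have h1 : 2 ^ (k + 1) * M₀ = 2 * (2 ^ k * M₀) := by ring
    rw [h1]
    apply hAp.mono_q
    -- the loss is small
    set x : ℝ := r * lam * ((2 ^ k * M₀ : ℕ) : ℝ) * m / 4 with hx
    have hM0' : (0 : ℝ) < M₀ := by exact_mod_cast hM
    have hx1 : 8 * (4 / 3 : ℝ) ^ k ≤ x := by
      have h2 : q / 2 ≤ r := by
        rw [hr]
        have : 0 ≤ q * (1 / 2 * (3 / 4 : ℝ) ^ k) := by positivity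
        linarith
      have h3 : (2 : ℝ) ^ k * (2 / 3) ^ k = (4 / 3) ^ k := by
        rw [← mul_pow]; norm_num
      have h4 : x = r * (lam * c / 4 * M₀ * (4 / 3) ^ k) := by
        rw [hx, hm, ← h3]; push_cast; ring
      rw [h4]
      calc 8 * (4 / 3 : ℝ) ^ k ≤ q * lam * c / 8 * M₀ * (4 / 3) ^ k :=
            mul_le_mul_of_nonneg_right hbig (by positivity)
        _ = q / 2 * (lam * c / 4 * M₀ * (4 / 3) ^ k) := by ring
        _ ≤ _ := mul_le_mul_of_nonneg_right h2 (by positivity)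
    have hx0 : 0 < x := lt_of_lt_of_le (by positivity) hx1
    have he : Real.exp (-x) ≤ (3 / 4) ^ k / 8 := by
      rw [Real.exp_neg, inv_le_comm₀ (Real.exp_pos x) (by positivity)]
      have h5 : ((3 / 4 : ℝ) ^ k / 8)⁻¹ = 8 * (4 / 3) ^ k := by
        rw [inv_div, div_eq_mul_inv, ← inv_pow]; norm_num
      rw [h5]
      have := Real.add_one_le_exp x
      linarith
    have hrq : r ≤ q := by
      rw [hr]
      have : (3 / 4 : ℝ) ^ k ≤ 1 := pow_le_one₀ (by norm_num) (by norm_num)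
      nlinarith
    have h6 : r * Real.exp (-x) ≤ q * ((3 / 4) ^ k / 8) :=
      mul_le_mul hrq he (Real.exp_pos _).le hq.le
    have h7 : q * (1 / 2 + 1 / 2 * (3 / 4 : ℝ) ^ (k + 1)) = r - q * ((3 / 4) ^ k / 8) := by
      rw [hr, pow_succ]; ring
    rw [h7]
    linarith
  · intro g
    have := unif_nonneg A hm0.le g
    linarith

/-- the rates with all the scales -/
theorem exists_rates [Infinite Γ] {lam : ℝ} (hlam : 1 < lam) : ∃ (T : Γ → ℝ) (q δ : ℝ), 0 < q ∧ 0 < δ ∧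
    (∀ g, 0 ≤ T g) ∧ (∀ g, T g⁻¹ = T g) ∧ (∀ F : Finset Γ, ∑ g ∈ F, T g ≤ 1 - δ) ∧
    ∀ N : ℕ, ∃ K : Finset Γ, ∀ P : Measure (Conf Γ), Ind P → Lb lam T P →
      q ≤ P.real {ω | N ≤ (cl ω K {1}).card} := by
  have hl0 : 0 < lam := by linarith
  set m₀ : ℝ := (1 + 1 / lam) / 2 with hm₀
  have h1l : 1 / lam < 1 := by rw [div_lt_one hl0]; exact hlam
  have hm0 : 0 < m₀ := by positivity
  have hm1 : m₀ < 1 := by rw [hm₀]; linarith
  have hlm : 1 < lam * m₀ := by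
    have : lam * m₀ = (lam + 1) / 2 := by rw [hm₀]; field_simp
    rw [this]; linarith
  set c : ℝ := (1 - m₀) / 6 with hc
  have hc0 : 0 < c := by rw [hc]; linarith
  obtain ⟨q, hq0, hq1, hfirst⟩ := first (Γ := Γ) hl0 hm0 hlm
  obtain ⟨M₀, hM₀⟩ := exists_nat_ge (max 1 (8 / (q * lam * c / 8)))
  have hM1 : (1 : ℝ) ≤ M₀ := (le_max_left _ _).trans hM₀
  have hM1' : 1 ≤ M₀ := by exact_mod_cast hM1
  have hbig : 8 ≤ q * lam * c / 8 * M₀ := by
    have h1 := (le_max_right _ _).trans hM₀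
    rw [div_le_iff₀ (by positivity)] at h1
    linarith
  obtain ⟨A, hA, -, hAp⟩ := hfirst M₀
  have hbase : Ok lam m₀ c q M₀ 0 (unif A m₀) := by
    refine ⟨unif_nonneg A hm0.le, unif_inv A m₀, ?_, ?_⟩
    · intro F; simpa using unif_sum_le hA hm0.le F
    · simp only [pow_zero, one_mul, mul_one]
      apply hAp.mono_q
      linarith
  have hnext : ∀ (k : ℕ) (W : Γ → ℝ), ∃ W' : Γ → ℝ, Ok lam m₀ c q M₀ k W →
      (Ok lam m₀ c q M₀ (k + 1) W' ∧ ∀ g, W g ≤ W' g) := by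
    intro k W
    by_cases h : Ok lam m₀ c q M₀ k W
    · obtain ⟨W', h1, h2⟩ := ok_next hl0 hc0 hq0 hM1' hbig h
      exact ⟨W', fun _ => ⟨h1, h2⟩⟩
    · exact ⟨W, fun h' => absurd h' h⟩
  choose f hf using hnext
  let seq : ℕ → Γ → ℝ := fun k => Nat.rec (unif A m₀) (fun j W => f j W) k
  have hseq0 : seq 0 = unif A m₀ := rfl
  have hseqS : ∀ k, seq (k + 1) = f k (seq k) := fun k => rfl
  have hok : ∀ k, Ok lam m₀ c q M₀ k (seq k) := by
    intro k
    induction k with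
    | zero => rw [hseq0]; exact hbase
    | succ k ih => rw [hseqS]; exact (hf k _ ih).1
  have hmono : ∀ g, Monotone (fun k => seq k g) := by
    intro g
    apply monotone_nat_of_le_succ
    intro k
    show seq k g ≤ seq (k + 1) g
    rw [hseqS]
    exact (hf k _ (hok k)).2 g
  have hgeo : ∀ k, ∑ j ∈ range k, c * (2 / 3 : ℝ) ^ j ≤ 3 * c := by
    intro k
    rw [← mul_sum]
    have h1 : ∑ j ∈ range k, (2 / 3 : ℝ) ^ j ≤ 3 := by
      have h2 := geom_sum_eq (x := (2 / 3 : ℝ)) (by norm_num) k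
      rw [h2]
      have : (0 : ℝ) ≤ (2 / 3) ^ k := by positivity
      rw [div_le_iff_of_neg (by norm_num)]
      linarith
    nlinarith
  have hsum : ∀ k, ∀ F : Finset Γ, ∑ g ∈ F, seq k g ≤ 1 - 3 * c := by
    intro k F
    have h1 := (hok k).sum F
    have h2 := hgeo k
    have h3 : m₀ + 3 * c ≤ 1 - 3 * c := by rw [hc]; linarith
    linarith
  have hbdd : ∀ g, BddAbove (Set.range fun k => seq k g) := by
    intro g
    refine ⟨1 - 3 * c, ?_⟩
    rintro _ ⟨k, rfl⟩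
    have := hsum k {g}
    rwa [sum_singleton] at this
  refine ⟨fun g => ⨆ k, seq k g, q / 2, 3 * c, by positivity, by positivity, ?_, ?_, ?_, ?_⟩
  · intro g
    exact le_trans ((hok 0).nonneg g) (le_ciSup (hbdd g) 0)
  · intro g
    show ⨆ k, seq k g⁻¹ = ⨆ k, seq k g
    congr 1
    funext k
    exact (hok k).inv g
  · intro F
    have h1 : Tendsto (fun k => ∑ g ∈ F, seq k g) atTop (𝓝 (∑ g ∈ F, ⨆ k, seq k g)) :=
      tendsto_finsetSum _ (fun g _ => tendsto_atTop_ciSup (hmono g) (hbdd g))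
    exact le_of_tendsto' h1 (fun k => hsum k F)
  · intro N
    obtain ⟨K, hK1, hK⟩ := (hok N).hp
    refine ⟨tr 1 K, ?_⟩
    intro P hP hL
    have hprob := hP.prob
    have hL' : Lb lam (seq N) P := by
      intro x a
      refine le_trans ?_ (hL x a)
      have h1 : seq N a ≤ ⨆ k, seq k a := le_ciSup (hbdd a) N
      have h2 : Real.exp (-(lam * ⨆ k, seq k a)) ≤ Real.exp (-(lam * seq N a)) := by
        apply Real.exp_le_exp.2
        have := mul_le_mul_of_nonneg_left h1 hl0.le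
        linarith
      linarith
    have h1 := hK P hP hL' 1
    have h2 : q / 2 ≤ q * (1 / 2 + 1 / 2 * (3 / 4) ^ N) := by
      have : 0 ≤ q * (1 / 2 * (3 / 4 : ℝ) ^ N) := by positivity
      linarith
    refine (h2.trans h1).trans (measureReal_mono ?_)
    intro ω hω
    have h3 : 2 ^ N * M₀ ≤ (cl ω (tr 1 K) {1}).card := hω
    have h4 : N ≤ 2 ^ N * M₀ := by
      calc N ≤ 2 ^ N := Nat.lt_two_pow_self.le
        _ = 2 ^ N * 1 := (mul_one _).symm
        _ ≤ 2 ^ N * M₀ := Nat.mul_le_mul_left _ hM1'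
    exact h4.trans h3

end Q295.Thr
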