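import Pool.Agent.Q295.Thr.Perc

/-! The step from one scale to the next one in a group. -/

set_option autoImplicit false

namespace Q295.Thr

open MeasureTheory ProbabilityTheory Function Finset Classical

variable {Γ : Type*} [Group Γ]

/-- the translate -/
noncomputable def tr (v : Γ) (K : Finset Γ) : Finset Γ := K.image (fun x => v * x)

theorem mem_tr {v : Γ} {K : Finset Γ} {y : Γ} : y ∈ tr v K ↔ v⁻¹ * y ∈ K := by
  unfold tr
  rw [mem_image]
  constructor
  · rintro ⟨x, hx, rfl⟩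
    simpa using hx
  · intro h
    exact ⟨v⁻¹ * y, h, by group⟩

/-- the rate given by the set `A` with the total mass `m` -/
noncomputable def unif (A : Finset Γ) (m : ℝ) (g : Γ) : ℝ :=
  m / (2 * A.card) * ((if g ∈ A then 1 else 0) + (if g⁻¹ ∈ A then 1 else 0))

theorem unif_nonneg (A : Finset Γ) {m : ℝ} (hm : 0 ≤ m) (g : Γ) : 0 ≤ unif A m g := by
  unfold unif
  have h1 : 0 ≤ m / (2 * (A.card : ℝ)) := by positivity
  have h2 : (0 : ℝ) ≤ (if g ∈ A then 1 else 0) + (if g⁻¹ ∈ A then 1 else 0) := by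
    split_ifs <;> norm_num
  exact mul_nonneg h1 h2

theorem unif_inv (A : Finset Γ) (m : ℝ) (g : Γ) : unif A m g⁻¹ = unif A m g := by
  unfold unif
  rw [inv_inv, add_comm]

theorem unif_le (A : Finset Γ) {m : ℝ} (hm : 0 ≤ m) (g : Γ) : unif A m g ≤ m / A.card := by
  unfold unif
  have h2 : ((if g ∈ A then 1 else 0) + (if g⁻¹ ∈ A then 1 else 0) : ℝ) ≤ 2 := by
    split_ifs <;> norm_num
  have h1 : 0 ≤ m / (2 * (A.card : ℝ)) := by positivity
  refine (mul_le_mul_of_nonneg_left h2 h1).trans (le_of_eq ?_)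
  rcases eq_or_ne (A.card : ℝ) 0 with h | h
  · rw [h]; simp
  · field_simp

theorem le_unif (A : Finset Γ) {m : ℝ} (hm : 0 ≤ m) {g : Γ} (hg : g ∈ A) : m / (2 * A.card) ≤ unif A m g := by
  unfold unif
  have h2 : (1 : ℝ) ≤ (if g ∈ A then 1 else 0) + (if g⁻¹ ∈ A then 1 else 0) := by
    rw [if_pos hg]; split_ifs <;> norm_num
  have h1 : 0 ≤ m / (2 * (A.card : ℝ)) := by positivity
  calc m / (2 * (A.card : ℝ)) = m / (2 * (A.card : ℝ)) * 1 := (mul_one _).symm
    _ ≤ _ := mul_le_mul_of_nonneg_left h2 h1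

theorem unif_sum {A : Finset Γ} (hA : A.Nonempty) (m : ℝ) {F : Finset Γ} (h1 : A ⊆ F) (h2 : A.image (·⁻¹) ⊆ F) :
    ∑ g ∈ F, unif A m g = m := by
  unfold unif
  rw [← mul_sum, sum_add_distrib, ← sum_filter, ← sum_filter]
  have h3 : F.filter (fun g => g ∈ A) = A := by
    ext g; rw [mem_filter]; exact ⟨fun h => h.2, fun h => ⟨h1 h, h⟩⟩
  have h4 : F.filter (fun g => g⁻¹ ∈ A) = A.image (·⁻¹) := by
    ext g
    rw [mem_filter, mem_image]
    constructor
    · rintro ⟨-, h⟩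
      exact ⟨g⁻¹, h, inv_inv g⟩
    · rintro ⟨x, hx, rfl⟩
      exact ⟨h2 (mem_image_of_mem _ hx), by simpa using hx⟩
  rw [h3, h4, sum_const, sum_const, card_image_of_injective _ inv_injective]
  have h5 : (A.card : ℝ) ≠ 0 := by
    have := card_pos.2 hA
    positivity
  simp only [nsmul_eq_mul, mul_one]
  field_simp
  ring

/-- the edge probabilities of `P` are bounded below by the rates `W` -/
def Lb (lam : ℝ) (W : Γ → ℝ) (P : Measure (Conf Γ)) : Prop :=
  ∀ x a : Γ, 1 - Real.exp (-(lam * W a)) ≤ P.real {ω | ω s(x, x * a) = true}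

/-- with the rates `W` the cluster of each vertex has at least `M` elements with probability at
least `q` -/
def Hp (lam : ℝ) (W : Γ → ℝ) (M : ℕ) (q : ℝ) : Prop :=
  ∃ K : Finset Γ, 1 ∈ K ∧ ∀ P : Measure (Conf Γ), Ind P → Lb lam W P →
    ∀ v, q ≤ P.real {ω | M ≤ (cl ω (tr v K) {v}).card}

/-- double translates -/
noncomputable def dbl (K : Finset Γ) (a : Γ) : Finset Γ := Finset.image₂ (fun x y => x * a * y) K K

theorem mem_dbl {K : Finset Γ} {a y : Γ} : y ∈ dbl K a ↔ ∃ x ∈ K, ∃ z ∈ K, x * a * z = y := by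
  unfold dbl; rw [mem_image₂]

theorem exists_generic [Infinite Γ] (K : Finset Γ) (N : ℕ) : ∃ A : Finset Γ, A.card = N ∧
    (∀ a ∈ A, Disjoint (dbl K a) K) ∧ (∀ a ∈ A, ∀ a' ∈ A, a ≠ a' → Disjoint (dbl K a) (dbl K a')) := by
  induction N with
  | zero => exact ⟨∅, by simp, by simp, by simp⟩
  | succ N ih =>
    obtain ⟨A, h1, h2, h3⟩ := ih
    obtain ⟨a, ha⟩ := Infinite.exists_notMem_finset
      (A ∪ (K ×ˢ K ×ˢ K).image (fun p => p.1⁻¹ * p.2.1 * p.2.2⁻¹) ∪
        (K ×ˢ K ×ˢ A ×ˢ K ×ˢ K).image (fun p => p.1⁻¹ * (p.2.1 * p.2.2.1 * p.2.2.2.1) * p.2.2.2.2⁻¹))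
    rw [mem_union, mem_union, not_or, not_or] at ha
    obtain ⟨⟨ha1, ha2⟩, ha3⟩ := ha
    have hK : Disjoint (dbl K a) K := by
      rw [disjoint_left]
      intro y hy hy'
      obtain ⟨x, hx, z, hz, rfl⟩ := mem_dbl.1 hy
      apply ha2
      rw [mem_image]
      exact ⟨(x, x * a * z, z), by simp [hx, hy', hz], by simp [mul_assoc]⟩
    have hA : ∀ a' ∈ A, Disjoint (dbl K a) (dbl K a') := by
      intro a' ha'
      rw [disjoint_left]
      intro y hy hy'
      obtain ⟨x, hx, z, hz, rfl⟩ := mem_dbl.1 hy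
      obtain ⟨x', hx', z', hz', he⟩ := mem_dbl.1 hy'
      apply ha3
      rw [mem_image]
      exact ⟨(x, x', a', z', z), by simp [hx, hx', ha', hz', hz], by
        simp only
        rw [he]; simp [mul_assoc]⟩
    refine ⟨insert a A, by rw [card_insert_of_notMem ha1, h1], ?_, ?_⟩
    · intro b hb
      rw [mem_insert] at hb
      rcases hb with rfl | hb
      · exact hK
      · exact h2 b hb
    · intro b hb c hc hbc
      rw [mem_insert] at hb hc
      rcases hb with rfl | hb <;> rcases hc with rfl | hc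
      · exact absurd rfl hbc
      · exact hA c hc
      · exact (hA b hb).symm
      · exact h3 b hb c hc hbc

/-- an attempt with the generator `a` succeeds -/
def Sc (K : Finset Γ) (M : ℕ) (a : Γ) (D : Finset Γ) (ω : Conf Γ) : Prop :=
  ∃ x ∈ D, ω s(x, x * a) = true ∧ M ≤ (cl ω (tr (x * a) K) {x * a}).card

/-- the edges which matter for the attempt -/
noncomputable def Ed (v : Γ) (K : Finset Γ) (a : Γ) (D : Finset Γ) : Finset (Sym2 Γ) :=
  D.image (fun x => s(x, x * a)) ∪ (tr v (dbl K a)).sym2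

theorem tr_sub {v : Γ} {K : Finset Γ} {a x : Γ} (hx : x ∈ tr v K) : tr (x * a) K ⊆ tr v (dbl K a) := by
  intro y hy
  rw [mem_tr] at hx hy ⊢
  rw [mem_dbl]
  exact ⟨v⁻¹ * x, hx, (x * a)⁻¹ * y, hy, by group⟩

omit [Group Γ] in
theorem sym2_mono {U U' : Finset Γ} (h : U ⊆ U') : U.sym2 ⊆ U'.sym2 := by
  intro e he
  rw [Finset.mem_sym2_iff] at he ⊢
  exact fun a ha => h (he a ha)

theorem Sc_dep {v : Γ} {K : Finset Γ} {M : ℕ} {a : Γ} {D : Finset Γ} (hD : D ⊆ tr v K) :
    Dep (Ed v K a D) (Sc K M a D) := by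
  have key : ∀ ω ω' : Conf Γ, (∀ e ∈ Ed v K a D, ω e = ω' e) → Sc K M a D ω → Sc K M a D ω' := by
    rintro ω ω' hω ⟨x, hx, h1, h2⟩
    refine ⟨x, hx, ?_, ?_⟩
    · rw [← hω s(x, x * a) (mem_union_left _ (mem_image_of_mem _ hx))]; exact h1
    · rw [← cl_congr (fun e he => hω e (mem_union_right _ (sym2_mono (tr_sub (hD hx)) he)))]
      exact h2
  intro ω ω' hω
  exact ⟨key ω ω' hω, key ω' ω (fun e he => (hω e he).symm)⟩

theorem big_dep (K : Finset Γ) (M : ℕ) (y : Γ) :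
    Dep (tr y K).sym2 (fun ω => M ≤ (cl ω (tr y K) {y}).card) := cl_dep _ _ (fun C => M ≤ C.card)

theorem one_mem_tr {v : Γ} {K : Finset Γ} (h : (1 : Γ) ∈ K) : v ∈ tr v K := by
  rw [mem_tr]; simpa using h

/-- the probability of a success with `a` -/
theorem Sc_prob {P : Measure (Conf Γ)} (hP : Ind P) {K : Finset Γ} (h1K : 1 ∈ K) {M : ℕ} {q p₀ : ℝ} (hp0 : p₀ ≤ 1)
    (hq0 : 0 ≤ q) (hbig : ∀ y, q ≤ P.real {ω | M ≤ (cl ω (tr y K) {y}).card}) {a v : Γ}
    (ha : Disjoint (dbl K a) K) (hedge : ∀ x, p₀ ≤ P.real {ω | ω s(x, x * a) = true}) :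
    ∀ D : Finset Γ, D ⊆ tr v K → q * (1 - (1 - p₀) ^ D.card) ≤ P.real {ω | Sc K M a D ω} := by
  have hprob := hP.prob
  intro D
  induction D using Finset.induction_on with
  | empty => intro _; simp only [card_empty, pow_zero, sub_self, mul_zero]; exact measureReal_nonneg
  | insert x D hx ih =>
    intro hD
    have hxK : x ∈ tr v K := hD (mem_insert_self x D)
    have hDK : D ⊆ tr v K := fun y hy => hD (mem_insert_of_mem hy)
    have ih' := ih hDK
    have hnot : ∀ y ∈ tr v K, y ∉ tr v (dbl K a) := by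
      intro y hy hc
      rw [mem_tr] at hy hc
      exact disjoint_left.1 ha hc hy
    have hxa : x * a ∈ tr v (dbl K a) := tr_sub hxK (one_mem_tr h1K)
    have hd1 : Disjoint {s(x, x * a)} (tr (x * a) K).sym2 := by
      rw [disjoint_singleton_left]
      intro hc
      exact hnot x hxK (tr_sub hxK (Finset.mk_mem_sym2_iff.1 hc).1)
    have hd2 : Disjoint {s(x, x * a)} (Ed v K a D) := by
      rw [disjoint_singleton_left]
      unfold Ed
      rw [mem_union, not_or]
      constructor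
      · intro hc
        obtain ⟨y, hy, hy'⟩ := mem_image.1 hc
        rw [Sym2.eq_iff] at hy'
        rcases hy' with ⟨rfl, -⟩ | ⟨h1, -⟩
        · exact hx hy
        · exact hnot y (hDK hy) (h1 ▸ hxa)
      · intro hc
        exact hnot x hxK (Finset.mk_mem_sym2_iff.1 hc).1
    have e1 := hP.mul hd1 (Dep.edge s(x, x * a)) (big_dep K M (x * a))
    have e2 := hP.mul hd2 (Dep.edge s(x, x * a)).not (Sc_dep (M := M) hDK)
    have e3 : P.real {ω | ¬ ω s(x, x * a) = true} = 1 - P.real {ω | ω s(x, x * a) = true} :=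
      probReal_compl_eq_one_sub (Dep.edge s(x, x * a)).meas
    have hsub : {ω : Conf Γ | ω s(x, x * a) = true ∧ M ≤ (cl ω (tr (x * a) K) {x * a}).card} ∪
        {ω | ¬ ω s(x, x * a) = true ∧ Sc K M a D ω} ⊆ {ω | Sc K M a (insert x D) ω} := by
      rintro ω (⟨h1, h2⟩ | ⟨-, y, hy, h1, h2⟩)
      · exact ⟨x, mem_insert_self x D, h1, h2⟩
      · exact ⟨y, mem_insert_of_mem hy, h1, h2⟩
    have hdisj : Disjoint {ω : Conf Γ | ω s(x, x * a) = true ∧ M ≤ (cl ω (tr (x * a) K) {x * a}).card}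
        {ω | ¬ ω s(x, x * a) = true ∧ Sc K M a D ω} := by
      rw [Set.disjoint_left]
      rintro ω ⟨h1, -⟩ ⟨h2, -⟩
      exact h2 h1
    have hmeas : MeasurableSet {ω : Conf Γ | ¬ ω s(x, x * a) = true ∧ Sc K M a D ω} :=
      (((Dep.edge s(x, x * a)).not.mono subset_union_left).and
        ((Sc_dep (M := M) hDK).mono subset_union_right)).meas
    refine le_trans ?_ (measureReal_mono hsub)
    rw [measureReal_union hdisj hmeas, e1, e2, e3, card_insert_of_notMem hx, pow_succ]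
    have h1 := hbig (x * a)
    have h2 := hedge x
    have h3 : P.real {ω | ω s(x, x * a) = true} ≤ 1 := measureReal_le_one
    have h4 : 0 ≤ P.real {ω | ω s(x, x * a) = true} := measureReal_nonneg
    set p := P.real {ω | ω s(x, x * a) = true}
    set t := (1 - p₀) ^ D.card
    have ht : 0 ≤ t := pow_nonneg (by linarith) _
    calc q * (1 - t * (1 - p₀)) ≤ p * q + (1 - p) * (q * (1 - t)) := by nlinarith [mul_nonneg hq0 ht]
      _ ≤ _ := add_le_add (mul_le_mul_of_nonneg_left h1 h4)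
          (mul_le_mul_of_nonneg_left ih' (by linarith))

theorem Ed_mono {v : Γ} {K : Finset Γ} {a : Γ} {D D' : Finset Γ} (h : D ⊆ D') : Ed v K a D ⊆ Ed v K a D' :=
  union_subset_union (image_subset_image h) (le_refl _)

/-- the edges of different attempts are different -/
theorem Ed_disj {v : Γ} {K : Finset Γ} (h1K : 1 ∈ K) {a a' : Γ} (ha : Disjoint (dbl K a) K) (ha' : Disjoint (dbl K a') K)
    (haa : Disjoint (dbl K a) (dbl K a')) {D : Finset Γ} (hD : D ⊆ tr v K) :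
    Disjoint (Ed v K a D) (Ed v K a' D) := by
  have hn : ∀ (b : Γ), Disjoint (dbl K b) K → ∀ y ∈ tr v K, y ∉ tr v (dbl K b) := by
    intro b hb y hy hc
    rw [mem_tr] at hy hc
    exact disjoint_left.1 hb hc hy
  have hm : ∀ (b : Γ), ∀ y ∈ tr v K, y * b ∈ tr v (dbl K b) := fun b y hy =>
    tr_sub hy (one_mem_tr h1K)
  have hnn : ∀ y ∈ tr v (dbl K a), y ∉ tr v (dbl K a') := by
    intro y hy hc
    rw [mem_tr] at hy hc
    exact disjoint_left.1 haa hy hc
  rw [disjoint_left]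
  intro e he he'
  unfold Ed at he he'
  rw [mem_union] at he he'
  rcases he with he | he <;> rcases he' with he' | he'
  · obtain ⟨x, hx, rfl⟩ := mem_image.1 he
    obtain ⟨y, hy, hy'⟩ := mem_image.1 he'
    rw [Sym2.eq_iff] at hy'
    rcases hy' with ⟨rfl, h⟩ | ⟨h1, h2⟩
    · exact hnn _ (hm a y (hD hy)) (h ▸ hm a' y (hD hy))
    · exact hn a ha y (hD hy) (h1 ▸ hm a x (hD hx))
  · obtain ⟨x, hx, rfl⟩ := mem_image.1 he
    exact hn a' ha' x (hD hx) (Finset.mk_mem_sym2_iff.1 he').1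
  · obtain ⟨y, hy, rfl⟩ := mem_image.1 he'
    exact hn a ha y (hD hy) (Finset.mk_mem_sym2_iff.1 he).1
  · induction e using Sym2.ind with
    | _ x y => exact hnn x (Finset.mk_mem_sym2_iff.1 he).1 (Finset.mk_mem_sym2_iff.1 he').1

/-- all the attempts fail -/
theorem fail_prob {P : Measure (Conf Γ)} (hP : Ind P) {K : Finset Γ} (h1K : 1 ∈ K) {M : ℕ} {π : ℝ}
    (hπ1 : π ≤ 1) {v : Γ} {D : Finset Γ} (hD : D ⊆ tr v K) : ∀ A : Finset Γ,
    (∀ a ∈ A, Disjoint (dbl K a) K) → (∀ a ∈ A, ∀ a' ∈ A, a ≠ a' → Disjoint (dbl K a) (dbl K a')) →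
    (∀ a ∈ A, π ≤ P.real {ω | Sc K M a D ω}) →
    Dep (A.biUnion (fun a => Ed v K a D)) (fun ω => ∀ a ∈ A, ¬ Sc K M a D ω) ∧
    P.real {ω | ∀ a ∈ A, ¬ Sc K M a D ω} ≤ (1 - π) ^ A.card := by
  have hprob := hP.prob
  intro A
  induction A using Finset.induction_on with
  | empty =>
    intro _ _ _
    refine ⟨fun ω ω' _ => by simp, ?_⟩
    rw [card_empty, pow_zero]; exact measureReal_le_one
  | insert a A ha ih =>
    intro h1 h2 h3
    obtain ⟨i1, i2⟩ := ih (fun b hb => h1 b (mem_insert_of_mem hb))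
      (fun b hb c hc => h2 b (mem_insert_of_mem hb) c (mem_insert_of_mem hc))
      (fun b hb => h3 b (mem_insert_of_mem hb))
    have e1 := (Sc_dep (M := M) (a := a) hD).not
    have hset : (fun ω => ∀ b ∈ insert a A, ¬ Sc K M b D ω) =
        fun ω => ¬ Sc K M a D ω ∧ ∀ b ∈ A, ¬ Sc K M b D ω := by
      funext ω
      rw [eq_iff_iff]
      exact forall_mem_insert _ _ _
    have hdisj : Disjoint (Ed v K a D) (A.biUnion (fun a => Ed v K a D)) := by
      rw [disjoint_biUnion_right]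
      intro b hb
      have hab : a ≠ b := fun hc => ha (hc ▸ hb)
      exact Ed_disj h1K (h1 a (mem_insert_self a A)) (h1 b (mem_insert_of_mem hb))
        (h2 a (mem_insert_self a A) b (mem_insert_of_mem hb) hab) hD
    rw [hset]
    constructor
    · rw [biUnion_insert]
      exact (e1.mono subset_union_left).and (i1.mono subset_union_right)
    · rw [hP.mul hdisj e1 i1, card_insert_of_notMem ha, pow_succ, mul_comm]
      have e3 : P.real {ω | ¬ Sc K M a D ω} = 1 - P.real {ω | Sc K M a D ω} :=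
        probReal_compl_eq_one_sub (Sc_dep hD).meas
      rw [e3]
      apply mul_le_mul i2 _ (by have : P.real {ω | Sc K M a D ω} ≤ 1 := measureReal_le_one; linarith)
        (pow_nonneg (by linarith) _)
      have := h3 a (mem_insert_self a A)
      linarith

theorem exp_aux {t : ℝ} (h0 : 0 ≤ t) (h1 : t ≤ 1) : t / 2 ≤ 1 - Real.exp (-t) := by
  have h2 := Real.quadratic_le_exp_of_nonneg h0
  have h3 : Real.exp (-t) ≤ 1 - t / 2 := by
    rw [Real.exp_neg]
    rw [inv_le_comm₀ (Real.exp_pos t) (by linarith)]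
    refine le_trans ?_ h2
    rw [inv_le_comm₀ (by linarith) (by positivity)]
    rw [inv_le_iff_one_le_mul₀ (by positivity)]
    nlinarith [mul_nonneg h0 (sub_nonneg.2 h1), sq_nonneg t, mul_nonneg (sq_nonneg t) (sub_nonneg.2 h1)]
  linarith

/-- the set of the vertices for the next scale -/
noncomputable def nx (K A : Finset Γ) : Finset Γ := K ∪ A.biUnion (dbl K)

theorem tr_nx1 (v : Γ) (K A : Finset Γ) : tr v K ⊆ tr v (nx K A) := by
  intro y hy
  rw [mem_tr] at hy ⊢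
  exact mem_union_left _ hy

theorem tr_nx2 (v : Γ) (K : Finset Γ) {A : Finset Γ} {a : Γ} (ha : a ∈ A) : tr v (dbl K a) ⊆ tr v (nx K A) := by
  intro y hy
  rw [mem_tr] at hy ⊢
  exact mem_union_right _ (mem_biUnion.2 ⟨a, ha, hy⟩)

/-- a success doubles the size of the cluster -/
theorem double {ω : Conf Γ} {K A : Finset Γ} (h1K : 1 ∈ K) {M : ℕ} {v a : Γ} (ha : a ∈ A)
    (haK : Disjoint (dbl K a) K) (h1 : M ≤ (cl ω (tr v K) {v}).card)
    (h2 : Sc K M a (cl ω (tr v K) {v}) ω) : 2 * M ≤ (cl ω (tr v (nx K A)) {v}).card := by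
  obtain ⟨x, hx, h3, h4⟩ := h2
  have hvn : v ∈ tr v (nx K A) := tr_nx1 v K A (one_mem_tr h1K)
  have hx' := hx
  unfold cl at hx'
  rw [mem_filter] at hx'
  obtain ⟨hxK, z, hz, hzK, hzx⟩ := hx'
  rw [mem_singleton] at hz
  rw [hz] at hzx
  have hxa : x * a ∈ tr v (dbl K a) := tr_sub hxK (one_mem_tr h1K)
  have h5 : Cn ω (tr v (nx K A)) v (x * a) :=
    (hzx.mono (tr_nx1 v K A)).tail ⟨tr_nx1 v K A hxK, tr_nx2 v K ha hxa, h3⟩
  have hsub1 : cl ω (tr v K) {v} ⊆ cl ω (tr v (nx K A)) {v} := by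
    intro y hy
    unfold cl at hy ⊢
    rw [mem_filter] at hy ⊢
    obtain ⟨i1, w, i2, i3, i4⟩ := hy
    exact ⟨tr_nx1 v K A i1, w, i2, tr_nx1 v K A i3, i4.mono (tr_nx1 v K A)⟩
  have hsub2 : cl ω (tr (x * a) K) {x * a} ⊆ cl ω (tr v (nx K A)) {v} := by
    intro y hy
    unfold cl at hy ⊢
    rw [mem_filter] at hy ⊢
    obtain ⟨i1, w, i2, i3, i4⟩ := hy
    rw [mem_singleton] at i2
    rw [i2] at i4
    have i5 : tr (x * a) K ⊆ tr v (nx K A) := (tr_sub hxK).trans (tr_nx2 v K ha)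
    exact ⟨i5 i1, v, mem_singleton_self v, hvn, h5.trans (i4.mono i5)⟩
  have hdisj : Disjoint (cl ω (tr v K) {v}) (cl ω (tr (x * a) K) {x * a}) := by
    rw [disjoint_left]
    intro y hy hy'
    unfold cl at hy hy'
    rw [mem_filter] at hy hy'
    have i1 := hy.1
    have i2 := tr_sub hxK hy'.1
    rw [mem_tr] at i1 i2
    exact disjoint_left.1 haK i2 i1
  calc 2 * M = M + M := two_mul M
    _ ≤ (cl ω (tr v K) {v}).card + (cl ω (tr (x * a) K) {x * a}).card := add_le_add h1 h4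
    _ = (cl ω (tr v K) {v} ∪ cl ω (tr (x * a) K) {x * a}).card := (card_union_of_disjoint hdisj).symm
    _ ≤ _ := card_le_card (union_subset hsub1 hsub2)

/-- the conditional estimate -/
theorem cond {P : Measure (Conf Γ)} (hP : Ind P) {K : Finset Γ} {M : ℕ} {e : ℝ} (he : 0 ≤ e)
    {v : Γ} {A : Finset Γ} (hAK : ∀ a ∈ A, Disjoint (dbl K a) K)
    (hD : ∀ D : Finset Γ, D ⊆ tr v K → M ≤ D.card →
      Dep (A.biUnion (fun a => Ed v K a D)) (fun ω => ∀ a ∈ A, ¬ Sc K M a D ω) ∧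
      P.real {ω | ∀ a ∈ A, ¬ Sc K M a D ω} ≤ e) (h1K : 1 ∈ K) :
    P.real {ω | M ≤ (cl ω (tr v K) {v}).card ∧ ∀ a ∈ A, ¬ Sc K M a (cl ω (tr v K) {v}) ω} ≤
      e * P.real {ω | M ≤ (cl ω (tr v K) {v}).card} := by
  have hprob := hP.prob
  set 𝒟 := (tr v K).powerset.filter (fun D => M ≤ D.card) with h𝒟
  have hcl : ∀ ω : Conf Γ, cl ω (tr v K) {v} ⊆ tr v K := fun ω => filter_subset _ _
  have hdep : ∀ D, Dep (tr v K).sym2 (fun ω => cl ω (tr v K) {v} = D) := fun D =>
    cl_dep _ _ (fun C => C = D)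
  have hset : {ω : Conf Γ | M ≤ (cl ω (tr v K) {v}).card} =
      ⋃ D ∈ 𝒟, {ω : Conf Γ | cl ω (tr v K) {v} = D} := by
    ext ω
    rw [Set.mem_iUnion₂]
    constructor
    · intro h
      exact ⟨cl ω (tr v K) {v}, mem_filter.2 ⟨mem_powerset.2 (hcl ω), h⟩, rfl⟩
    · rintro ⟨D, hD1, hD2⟩
      have hD3 : cl ω (tr v K) {v} = D := hD2
      show M ≤ (cl ω (tr v K) {v}).card
      rw [hD3]
      exact (mem_filter.1 hD1).2
  have hsum : P.real {ω : Conf Γ | M ≤ (cl ω (tr v K) {v}).card} =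
      ∑ D ∈ 𝒟, P.real {ω : Conf Γ | cl ω (tr v K) {v} = D} := by
    rw [hset]
    apply measureReal_biUnion_finset
    · intro D _ D' _ hDD
      show Disjoint _ _
      rw [Set.disjoint_left]
      intro ω h1 h2
      have h3 : cl ω (tr v K) {v} = D := h1
      have h4 : cl ω (tr v K) {v} = D' := h2
      exact hDD (h3.symm.trans h4)
    · exact fun D _ => (hdep D).meas
    · exact fun D _ => measure_ne_top _ _
  have hsub : {ω : Conf Γ | M ≤ (cl ω (tr v K) {v}).card ∧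
      ∀ a ∈ A, ¬ Sc K M a (cl ω (tr v K) {v}) ω} ⊆
      ⋃ D ∈ 𝒟, {ω : Conf Γ | cl ω (tr v K) {v} = D ∧ ∀ a ∈ A, ¬ Sc K M a D ω} := by
    rintro ω ⟨h1, h2⟩
    rw [Set.mem_iUnion₂]
    exact ⟨cl ω (tr v K) {v}, mem_filter.2 ⟨mem_powerset.2 (hcl ω), h1⟩, rfl, h2⟩
  calc P.real {ω | M ≤ (cl ω (tr v K) {v}).card ∧ ∀ a ∈ A, ¬ Sc K M a (cl ω (tr v K) {v}) ω}
      ≤ P.real (⋃ D ∈ 𝒟, {ω : Conf Γ | cl ω (tr v K) {v} = D ∧ ∀ a ∈ A, ¬ Sc K M a D ω}) :=
        measureReal_mono hsub (measure_ne_top _ _)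
    _ ≤ ∑ D ∈ 𝒟, P.real {ω : Conf Γ | cl ω (tr v K) {v} = D ∧ ∀ a ∈ A, ¬ Sc K M a D ω} :=
        measureReal_biUnion_finset_le _ _
    _ ≤ ∑ D ∈ 𝒟, P.real {ω : Conf Γ | cl ω (tr v K) {v} = D} * e := by
        apply sum_le_sum
        intro D hDD
        rw [h𝒟, mem_filter, mem_powerset] at hDD
        obtain ⟨d1, d2⟩ := hD D hDD.1 hDD.2
        have hdisj : Disjoint (tr v K).sym2 (A.biUnion (fun a => Ed v K a D)) := by
          rw [disjoint_biUnion_right]
          intro a ha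
          have hn : ∀ y ∈ tr v K, y ∉ tr v (dbl K a) := by
            intro y hy hc
            rw [mem_tr] at hy hc
            exact disjoint_left.1 (hAK a ha) hc hy
          rw [disjoint_left]
          intro f hf hf'
          unfold Ed at hf'
          rw [mem_union] at hf'
          rcases hf' with hf' | hf'
          · obtain ⟨x, hx, rfl⟩ := mem_image.1 hf'
            exact hn _ (Finset.mk_mem_sym2_iff.1 hf).2 (tr_sub (hDD.1 hx) (one_mem_tr h1K))
          · induction f using Sym2.ind with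
            | _ x y => exact hn x (Finset.mk_mem_sym2_iff.1 hf).1 (Finset.mk_mem_sym2_iff.1 hf').1
        rw [hP.mul hdisj (hdep D) d1]
        exact mul_le_mul_of_nonneg_left d2 measureReal_nonneg
    _ = e * P.real {ω | M ≤ (cl ω (tr v K) {v}).card} := by
        rw [← sum_mul, ← hsum, mul_comm]

/-- the step -/
theorem step [Infinite Γ] {lam m q : ℝ} {M : ℕ} {W : Γ → ℝ} (hlam : 0 < lam) (hm : 0 < m) (hq : 0 < q)
    (hM : 1 ≤ M) (hW : ∀ g, 0 ≤ W g) (h : Hp lam W M q) : ∃ A : Finset Γ, A.Nonempty ∧ 1 ∉ A ∧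
      Hp lam (fun g => W g + unif A m g) (2 * M) (q * (1 - Real.exp (-(q * lam * M * m / 4)))) := by
  obtain ⟨K, h1K, hK⟩ := h
  obtain ⟨N, hN⟩ := exists_nat_ge (max 1 (lam * m * M / 2))
  have hN1 : (1 : ℝ) ≤ N := (le_max_left _ _).trans hN
  have hN2 : lam * m * M / 2 ≤ N := (le_max_right _ _).trans hN
  obtain ⟨A, hA, hAK, hAA⟩ := exists_generic K N
  have hNpos : 0 < N := by
    have : (0 : ℝ) < N := by linarith
    exact_mod_cast this
  refine ⟨A, card_pos.1 (by omega), ?_, nx K A, mem_union_left _ h1K, ?_⟩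
  · intro h1
    exact disjoint_left.1 (hAK 1 h1) (mem_dbl.2 ⟨1, h1K, 1, h1K, by simp⟩) h1K
  intro P hP hL v
  have hprob := hP.prob
  have hM' : (1 : ℝ) ≤ M := by exact_mod_cast hM
  have hL1 : Lb lam W P := by
    intro x a
    refine le_trans ?_ (hL x a)
    have h1 := unif_nonneg A hm.le a
    have h2 : Real.exp (-(lam * (W a + unif A m a))) ≤ Real.exp (-(lam * W a)) := by
      apply Real.exp_le_exp.2
      nlinarith [mul_nonneg hlam.le h1]
    linarith
  have hbig := hK P hP hL1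
  set p₀ : ℝ := 1 - Real.exp (-(lam * (m / (2 * A.card)))) with hp₀
  have hexp1 : Real.exp (-(lam * (m / (2 * (A.card : ℝ))))) ≤ 1 := by
    rw [Real.exp_le_one_iff]
    have : 0 ≤ lam * (m / (2 * (A.card : ℝ))) := by positivity
    linarith
  have hp1 : p₀ ≤ 1 := by have := Real.exp_pos (-(lam * (m / (2 * (A.card : ℝ))))); linarith
  have hp0 : 0 ≤ p₀ := by linarith
  have hedge : ∀ a ∈ A, ∀ x, p₀ ≤ P.real {ω | ω s(x, x * a) = true} := by
    intro a ha x
    refine le_trans ?_ (hL x a)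
    have h1 := le_unif A hm.le ha
    have h2 : Real.exp (-(lam * (W a + unif A m a))) ≤ Real.exp (-(lam * (m / (2 * A.card)))) := by
      apply Real.exp_le_exp.2
      have h3 : lam * (m / (2 * A.card)) ≤ lam * (W a + unif A m a) :=
        mul_le_mul_of_nonneg_left (by linarith [hW a]) hlam.le
      linarith
    linarith
  have hq1 : q ≤ 1 := (hbig v).trans measureReal_le_one
  -- the success probability of one attempt
  set t : ℝ := lam * m * M / (2 * N) with ht
  have ht0 : 0 ≤ t := by positivity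
  have ht1 : t ≤ 1 := by
    rw [ht, div_le_one (by positivity)]
    linarith
  have hsucc : ∀ D : Finset Γ, D ⊆ tr v K → M ≤ D.card → ∀ a ∈ A,
      q * (t / 2) ≤ P.real {ω | Sc K M a D ω} := by
    intro D hD hDM a ha
    refine le_trans ?_ (Sc_prob hP h1K hp1 hq.le hbig (hAK a ha) (hedge a ha) D hD)
    apply mul_le_mul_of_nonneg_left _ hq.le
    refine (exp_aux ht0 ht1).trans ?_
    have h1 : (1 - p₀) ^ D.card ≤ Real.exp (-t) := by
      calc (1 - p₀) ^ D.card ≤ (1 - p₀) ^ M := pow_le_pow_of_le_one (by linarith) (by linarith) hDM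
        _ = Real.exp (-t) := by
            rw [hp₀, sub_sub_cancel, ← Real.exp_nat_mul, ht, hA]
            congr 1
            field_simp
    linarith
  set e : ℝ := Real.exp (-(q * lam * M * m / 4)) with he
  have hfail : ∀ D : Finset Γ, D ⊆ tr v K → M ≤ D.card →
      Dep (A.biUnion (fun a => Ed v K a D)) (fun ω => ∀ a ∈ A, ¬ Sc K M a D ω) ∧
      P.real {ω | ∀ a ∈ A, ¬ Sc K M a D ω} ≤ e := by
    intro D hD hDM
    have hqt : q * (t / 2) ≤ 1 := by nlinarith
    obtain ⟨f1, f2⟩ := fail_prob (M := M) hP h1K hqt hD A hAK hAA (hsucc D hD hDM)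
    refine ⟨f1, f2.trans ?_⟩
    have h1 : 1 - q * (t / 2) ≤ Real.exp (-(q * (t / 2))) := by
      have := Real.add_one_le_exp (-(q * (t / 2)))
      linarith
    calc (1 - q * (t / 2)) ^ A.card ≤ Real.exp (-(q * (t / 2))) ^ A.card :=
          pow_le_pow_left₀ (by linarith) h1 _
      _ = e := by
          rw [← Real.exp_nat_mul, he, ht, hA]
          congr 1
          field_simp
          ring
  have hc := cond hP (Real.exp_pos _).le hAK hfail h1K
  have hsub : {ω : Conf Γ | M ≤ (cl ω (tr v K) {v}).card} ⊆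
      {ω | 2 * M ≤ (cl ω (tr v (nx K A)) {v}).card} ∪
      {ω | M ≤ (cl ω (tr v K) {v}).card ∧ ∀ a ∈ A, ¬ Sc K M a (cl ω (tr v K) {v}) ω} := by
    intro ω hω
    by_cases hs : ∀ a ∈ A, ¬ Sc K M a (cl ω (tr v K) {v}) ω
    · exact Or.inr ⟨hω, hs⟩
    · push Not at hs
      obtain ⟨a, ha, hs⟩ := hs
      exact Or.inl (double h1K ha (hAK a ha) hω hs)
  have h1 := (measureReal_mono (μ := P) hsub).trans (measureReal_union_le _ _)
  have h2 := hbig v
  have h3 : e ≤ 1 := by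
    rw [he, Real.exp_le_one_iff]
    have : 0 ≤ q * lam * M * m / 4 := by positivity
    linarith
  nlinarith

end Q295.Thr
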